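import Pool.Agent.Lib_helper74.Rem.Num

/-!
# MP_df1a54_co: a lower bound for all `k` from Mader's theorem
-/

set_option autoImplicit false

namespace Pool.Agent.Lib_helper74.Rem

open Pool.Agent.RE26 Finset

theorem quarter_graph {n k : ℕ} (hk : 2 ≤ k) (G : SimpleGraph (Fin n))
    (hG : KConn G k) : (k - 2) * n + 2 ≤ (4 * k - 6) * rem G k := by
  classical
  have hkn : k < n := by have := hG.1; rwa [Fintype.card_fin] at this
  -- a largest admissible set
  have hne : {m | ∃ F : Finset (Sym2 (Fin n)), (F : Set (Sym2 (Fin n))) ⊆ G.edgeSet ∧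
      F.card = m ∧ KConn (G.deleteEdges (F : Set (Sym2 (Fin n)))) (k - 1)}.Nonempty := by
    refine ⟨0, ∅, by simp, rfl, ?_⟩
    rw [coe_empty, SimpleGraph.deleteEdges_empty]
    exact ⟨by have := hG.1; omega, fun S hS => hG.2 S (by omega)⟩
  obtain ⟨F, hFsub, hFcard, hFconn⟩ := Nat.sSup_mem hne (bddAbove_rem G k)
  have hrem : F.card = rem G k := hFcard
  set G' := G.deleteEdges (F : Set (Sym2 (Fin n))) with hG'
  -- no edge can be added to F
  have hmax : ∀ x y, G'.Adj x y → ¬ KConn (G'.deleteEdges {s(x, y)}) (k - 1) := by
    intro x y hxy hcon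
    have hxyG : s(x, y) ∈ G.edgeSet ∧ s(x, y) ∉ F := by
      rw [hG', SimpleGraph.deleteEdges_adj] at hxy
      exact ⟨hxy.1, by simpa using hxy.2⟩
    have h1 : (insert s(x, y) F).card ≤ rem G k := by
      refine le_csSup (bddAbove_rem G k) ⟨insert s(x, y) F, ?_, rfl, ?_⟩
      · rw [coe_insert]
        exact Set.insert_subset hxyG.1 hFsub
      · rw [hG', SimpleGraph.deleteEdges_deleteEdges] at hcon
        rw [coe_insert, Set.insert_eq, Set.union_comm]
        exact hcon
    rw [card_insert_of_notMem hxyG.2, ← hrem] at h1
    omega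
  set U : Finset (Fin n) := univ.filter (fun v => k ≤ G'.degree v) with hU
  -- edges inside U
  set K : Finset (Sym2 (Fin n)) := G'.edgeFinset.filter (fun e => ∀ v ∈ e, v ∈ U) with hK
  have hKU : 2 * K.card + 2 ≤ 2 * U.card ∨ U = ∅ := by
    rcases U.eq_empty_or_nonempty with h | h
    · exact Or.inr h
    · left
      have := mader_in G' (k - 1) hFconn K U h (fun e he => (mem_filter.1 he).2) (by
        intro x y hxy
        rw [hK, mem_filter, SimpleGraph.mem_edgeFinset] at hxy
        refine ⟨hxy.1, ⟨G'.neighborFinset x, ?_, ?_⟩, hmax x y hxy.1⟩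
        · have hx : x ∈ U := hxy.2 x (by simp)
          rw [hU, mem_filter] at hx
          rw [SimpleGraph.card_neighborFinset_eq_degree]
          omega
        · intro z hz
          rwa [SimpleGraph.mem_neighborFinset] at hz)
      omega
  -- degree sum over U
  have hsumU : ∑ v ∈ U, G'.degree v ≤ 2 * K.card + (k - 1) * Uᶜ.card := by
    have h1 : ∀ v ∈ U, G'.degree v = (U.filter (fun u => G'.Adj v u)).card +
        (Uᶜ.filter (fun u => G'.Adj v u)).card := by
      intro v _
      rw [← SimpleGraph.card_neighborFinset_eq_degree, ← card_union_of_disjoint]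
      · congr 1
        ext u
        simp only [SimpleGraph.mem_neighborFinset, mem_union, mem_filter, mem_compl]
        tauto
      · rw [disjoint_left]
        intro u hu hu'
        exact (mem_compl.1 (mem_filter.1 hu').1) (mem_filter.1 hu).1
    rw [sum_congr rfl h1, sum_add_distrib]
    refine add_le_add ?_ ?_
    · -- twice the edges inside U
      have h2 : ∑ v ∈ U, (U.filter (fun u => G'.Adj v u)).card =
          (univ.filter (fun d : G'.Dart => d.edge ∈ K)).card := by
        rw [card_eq_sum_ones, ← sum_fiberwise_of_maps_to (s := univ.filter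
          (fun d : G'.Dart => d.edge ∈ K)) (t := U) (g := fun d => d.fst)]
        · refine sum_congr rfl fun v hv => ?_
          rw [← card_eq_sum_ones]
          refine card_bij (fun u hu => (⟨(v, u), (mem_filter.1 hu).2⟩ : G'.Dart)) ?_ ?_ ?_
          · intro u hu
            rw [mem_filter, mem_filter]
            refine ⟨⟨mem_univ _, ?_⟩, rfl⟩
            rw [hK, mem_filter, SimpleGraph.mem_edgeFinset]
            refine ⟨(mem_filter.1 hu).2, ?_⟩
            intro w hw
            have hw' : w ∈ s(v, u) := hw
            rw [Sym2.mem_iff] at hw'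
            rcases hw' with rfl | rfl
            · exact hv
            · exact (mem_filter.1 hu).1
          · intro u hu u' hu' h
            simpa using congrArg (fun d : G'.Dart => d.snd) h
          · rintro ⟨⟨a, b⟩, hab⟩ hd
            rw [mem_filter, mem_filter] at hd
            have ha : a = v := hd.2
            subst ha
            refine ⟨b, ?_, rfl⟩
            rw [mem_filter]
            refine ⟨?_, hab⟩
            have h3 := hd.1.2
            rw [hK, mem_filter] at h3
            exact h3.2 b (by simp [SimpleGraph.Dart.edge])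
        · intro d hd
          rw [mem_filter, hK, mem_filter] at hd
          exact hd.2.2 _ (by simp [SimpleGraph.Dart.edge])
      rw [h2]
      have h3 : (univ.filter (fun d : G'.Dart => d.edge ∈ K)).card ≤ 2 * K.card := by
        refine card_le_mul_card_image_of_maps_to (f := fun d : G'.Dart => d.edge)
          (fun d hd => (mem_filter.1 hd).2) 2 ?_
        intro e he
        rw [hK, mem_filter, SimpleGraph.mem_edgeFinset] at he
        have h4 := G'.dart_edge_fiber_card e he.1
        refine le_trans (card_le_card ?_) h4.le
        intro d hd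
        rw [mem_filter] at hd ⊢
        exact ⟨mem_univ _, hd.2⟩
      omega
    · -- edges to the complement
      have hdc := sum_card_bipartiteAbove_eq_sum_card_bipartiteBelow (fun v u => G'.Adj v u)
        (s := U) (t := Uᶜ)
      simp only [bipartiteAbove, bipartiteBelow] at hdc
      rw [hdc]
      calc ∑ u ∈ Uᶜ, (U.filter (fun v => G'.Adj v u)).card ≤ ∑ _u ∈ Uᶜ, (k - 1) := by
            refine sum_le_sum fun u hu => ?_
            have hu' : ¬ k ≤ G'.degree u := fun h => (mem_compl.1 hu) (mem_filter.2 ⟨mem_univ _, h⟩)
            have h2 : U.filter (fun v => G'.Adj v u) ⊆ G'.neighborFinset u := by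
              intro v hv
              rw [SimpleGraph.mem_neighborFinset]
              exact (mem_filter.1 hv).2.symm
            have h3 := card_le_card h2
            rw [SimpleGraph.card_neighborFinset_eq_degree] at h3
            omega
        _ = (k - 1) * Uᶜ.card := by rw [sum_const, smul_eq_mul, mul_comm]
  have hlowU : k * U.card ≤ ∑ v ∈ U, G'.degree v := by
    calc k * U.card = ∑ _v ∈ U, k := by rw [sum_const, smul_eq_mul, mul_comm]
      _ ≤ _ := sum_le_sum fun v hv => (mem_filter.1 hv).2
  -- every vertex outside U meets F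
  have hD : Uᶜ.card ≤ 2 * F.card := by
    have h1 : Uᶜ ⊆ F.biUnion (fun e => univ.filter (fun v => v ∈ e)) := by
      intro v hv
      rw [mem_biUnion]
      by_contra hcon
      push Not at hcon
      have h2 : G.neighborFinset v ⊆ G'.neighborFinset v := by
        intro u hu
        rw [SimpleGraph.mem_neighborFinset] at hu ⊢
        rw [hG', SimpleGraph.deleteEdges_adj]
        refine ⟨hu, fun h => ?_⟩
        exact hcon s(v, u) (by simpa using h) (by simp)
      have h3 := card_le_card h2
      rw [SimpleGraph.card_neighborFinset_eq_degree,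
        SimpleGraph.card_neighborFinset_eq_degree] at h3
      have h4 := le_degree G k hG v
      exact (mem_compl.1 hv) (mem_filter.2 ⟨mem_univ _, h4.trans h3⟩)
    refine (card_le_card h1).trans (card_biUnion_le.trans ?_)
    calc ∑ e ∈ F, (univ.filter (fun v => v ∈ e)).card ≤ ∑ _e ∈ F, 2 := by
          refine sum_le_sum fun e _ => ?_
          induction e using Sym2.ind with
          | _ u v =>
            have : univ.filter (fun w => w ∈ s(u, v)) ⊆ {u, v} := by
              intro w hw
              rw [mem_filter, Sym2.mem_iff] at hw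
              simpa using hw.2
            exact (card_le_card this).trans card_le_two
      _ = 2 * F.card := by rw [sum_const, smul_eq_mul, mul_comm]
  have hcomp : Uᶜ.card + U.card = n := by
    rw [card_compl, Fintype.card_fin]
    have : U.card ≤ n := by
      have := card_le_univ U
      rwa [Fintype.card_fin] at this
    omega
  rw [← hrem]
  obtain ⟨j, rfl⟩ : ∃ j, k = j + 2 := ⟨k - 2, by omega⟩
  have e1 : j + 2 - 2 = j := by omega
  have e2 : 4 * (j + 2) - 6 = 4 * j + 2 := by omega
  have e3 : j + 2 - 1 = j + 1 := by omega
  rw [e1, e2]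
  rw [e3] at hsumU
  set D := Uᶜ.card with hDd
  set u := U.card with hud
  rcases hKU with h | h
  · -- (j+2) u <= 2 (u - 1) + (j+1) D
    have h1 : (j + 2) * u + 2 ≤ 2 * u + (j + 1) * D := by omega
    have h2 : j * n + 2 ≤ (2 * j + 1) * D := by
      rw [← hcomp]
      nlinarith
    nlinarith
  · have hu0 : u = 0 := by rw [hud, h, card_empty]
    have : D = n := by omega
    nlinarith

theorem quarter (n k : ℕ) (hk : 2 ≤ k) (hkn : k < n) :
    (k - 2) * n + 2 ≤ (4 * k - 6) * fnk n k := by
  obtain ⟨G0, hG0⟩ := exists_kconn n k hkn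
  have hne : {m | ∃ G : SimpleGraph (Fin n), KConn G k ∧ rem G k = m}.Nonempty :=
    ⟨rem G0 k, G0, hG0, rfl⟩
  obtain ⟨G, hG, hGm⟩ := Nat.sInf_mem hne
  have : fnk n k = rem G k := hGm.symm
  rw [this]
  exact quarter_graph hk G hG

end Pool.Agent.Lib_helper74.Rem
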