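import Pool.Agent.Lib_helper26.RE.Conn

/-!
# MP_df1a54_co: asymptotics of `f(n, k)`; statements of the modules
-/

set_option autoImplicit false

namespace Pool.Agent.Lib_helper74.Rem

open Pool.Agent.RE26 Finset

/-- (M1) Mader: in an `m`-connected graph the critical edges whose two ends have degree more than
`m` form a forest. -/
def MaderStmt : Prop :=
  ∀ (V : Type) [Fintype V] [DecidableEq V] (G : SimpleGraph V) (m : ℕ), KConn G m →
    ∀ K : Finset (Sym2 V),
      (∀ x y : V, s(x, y) ∈ K → G.Adj x y ∧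
        (∃ S : Finset V, m + 1 ≤ S.card ∧ ∀ z ∈ S, G.Adj x z) ∧
        ¬ KConn (G.deleteEdges {s(x, y)}) m) →
      K.card < Fintype.card V

/-- (M2, M3) the random greedy process: every edge `e` occupies the two slots `a e ≠ b e`, every slot
carries at most `k` edges; `Adm U F`: the set `F` of edges is admissible and the slots in `U` are
free.  If at each moment at most `β` of the edges with two free slots are blocked, then there is a
large admissible set. -/
def ProcStmt : Prop :=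
  ∀ (E W : Type) [Fintype E] [Fintype W] [DecidableEq E] [DecidableEq W]
    (a b : E → W) (k β : ℕ) (Adm : Finset W → Finset E → Prop),
    (∀ e, a e ≠ b e) →
    (∀ e e', ((a e = a e' ∧ b e = b e') ∨ (a e = b e' ∧ b e = a e')) → e = e') →
    1 ≤ k → (∀ w, (univ.filter (fun e => a e = w ∨ b e = w)).card ≤ k) →
    2 ≤ Fintype.card W → β ≤ Fintype.card W →
    Adm univ ∅ →
    (∀ U U' F, Adm U F → U' ⊆ U → Adm U' F) →
    (∀ U F e, Adm U F → e ∈ F → a e ∉ U) →
    (∀ U F, Adm U F → ∀ B : Finset E, (∀ e ∈ B, a e ∈ U ∧ b e ∈ U ∧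
      ¬ Adm ((U.erase (a e)).erase (b e)) (insert e F)) → B.card ≤ β) →
    ∀ T : ℕ, ∃ U F, Adm U F ∧
      (Fintype.card E : ℝ) / k * (1 - 1 / Fintype.card W) *
          (1 - (1 - 1 / (Fintype.card W : ℝ)) ^ T) - 2 * T / Real.sqrt k -
          5 * (Fintype.card W / k) / (1 - 1 / (Fintype.card W : ℝ)) ^ T ≤ (F.card : ℝ)

/-- (M4) the bound of the process for a `k`-connected graph; `e` is the number of edges and `N`
the number of slots -/
def SplitStmt : Prop :=
  ∀ (n k : ℕ) (G : SimpleGraph (Fin n)), 1 ≤ k → KConn G k →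
    ∃ e N : ℕ, k * n ≤ 2 * e ∧ n ≤ N ∧ k * N ≤ 2 * e + k * n ∧
    ∀ T : ℕ, (e : ℝ) / k * (1 - 1 / N) * (1 - (1 - 1 / (N : ℝ)) ^ T) - 2 * T / Real.sqrt k -
          5 * (N / k) / (1 - 1 / (N : ℝ)) ^ T ≤ (rem G k : ℝ)

/-- (M5) the upper bound from Harary's graphs -/
def UpperStmt : Prop :=
  ∀ n k : ℕ, 2 ≤ k → k < n → fnk n k ≤ (k * n + 1) / 2 - ((k - 1) * n + 1) / 2

end Pool.Agent.Lib_helper74.Rem
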