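import Pool.Agent.Lib_helper74.Rem.Defs
import Pool.Agent.Lib_helper26.RE.Ring

/-!
# Mader's theorem on critical edges (module M1)
-/

set_option autoImplicit false

namespace Pool.Agent.Lib_helper74.Rem

open Pool.Agent.RE26 Finset

section

variable {V : Type} [Fintype V] [DecidableEq V]

/-- numerical form of a separation -/
theorem sep_num {G : SimpleGraph V} {m : ℕ} (h : KConn G m) (X Y : Finset V)
    (hX : X.Nonempty) (hY : Y.Nonempty) (hXY : Disjoint X Y)
    (hn : ∀ x ∈ X, ∀ y ∈ Y, ¬ G.Adj x y) : X.card + Y.card + m ≤ Fintype.card V := by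
  have h1 := sep_of_kconn G m h X Y hX hY hXY hn
  have h2 : (X ∪ Y).card ≤ Fintype.card V := card_le_univ _
  rw [card_compl] at h1
  rw [card_union_of_disjoint hXY] at h1 h2
  omega

/-- the separation belonging to a critical edge -/
def CSep (G : SimpleGraph V) (m : ℕ) (x y : V) (A B : Finset V) : Prop :=
  x ∈ A ∧ y ∈ B ∧ Disjoint A B ∧ (∀ a ∈ A, ∀ b ∈ B, G.Adj a b → a = x ∧ b = y) ∧
    A.card + B.card + m = Fintype.card V + 1

theorem CSep.symm {G : SimpleGraph V} {m : ℕ} {x y : V} {A B : Finset V} (h : CSep G m x y A B) :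
    CSep G m y x B A := by
  obtain ⟨h1, h2, h3, h4, h5⟩ := h
  refine ⟨h2, h1, h3.symm, fun b hb a ha hab => ?_, by omega⟩
  obtain ⟨e1, e2⟩ := h4 a ha b hb hab.symm
  exact ⟨e2, e1⟩

theorem csep_card {G : SimpleGraph V} {m : ℕ} (hG : KConn G m) {x y : V}
    (A B : Finset V) (hx : x ∈ A) (hy : y ∈ B) (hAB : Disjoint A B)
    (he : ∀ a ∈ A, ∀ b ∈ B, G.Adj a b → a = x ∧ b = y) :
    A.card + B.card + m ≤ Fintype.card V + 1 := by
  have hm := hG.1
  by_cases hA : (A.erase x).Nonempty
  · have := sep_num hG (A.erase x) B hA ⟨y, hy⟩ (disjoint_of_subset_left (erase_subset _ _) hAB)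
      (fun a ha b hb hab => (ne_of_mem_erase ha) (he a (mem_of_mem_erase ha) b hb hab).1)
    rw [card_erase_of_mem hx] at this
    have hA1 : 1 ≤ A.card := card_pos.2 ⟨x, hx⟩
    omega
  by_cases hB : (B.erase y).Nonempty
  · have := sep_num hG A (B.erase y) ⟨x, hx⟩ hB (disjoint_of_subset_right (erase_subset _ _) hAB)
      (fun a ha b hb hab => (ne_of_mem_erase hb) (he a ha b (mem_of_mem_erase hb) hab).2)
    rw [card_erase_of_mem hy] at this
    have hB1 : 1 ≤ B.card := card_pos.2 ⟨y, hy⟩
    omega
  rw [not_nonempty_iff_eq_empty] at hA hB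
  have h1 : A.card = 1 := by
    have := card_erase_of_mem hx
    rw [hA, card_empty] at this
    have hA1 : 1 ≤ A.card := card_pos.2 ⟨x, hx⟩
    omega
  have h2 : B.card = 1 := by
    have := card_erase_of_mem hy
    rw [hB, card_empty] at this
    have hB1 : 1 ≤ B.card := card_pos.2 ⟨y, hy⟩
    omega
  omega

theorem exists_csep {G : SimpleGraph V} {m : ℕ} (hG : KConn G m) {x y : V} (hxy : G.Adj x y)
    (hc : ¬ KConn (G.deleteEdges {s(x, y)}) m) : ∃ A B, CSep G m x y A B := by
  classical
  have key : ∃ X Y : Finset V, X.Nonempty ∧ Y.Nonempty ∧ Disjoint X Y ∧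
      (∀ a ∈ X, ∀ b ∈ Y, ¬ (G.deleteEdges {s(x, y)}).Adj a b) ∧
      Fintype.card V < X.card + Y.card + m := by
    by_contra hcon
    apply hc
    refine kconn_of_sep _ m hG.1 ?_
    intro X Y hX hY hXY hn
    by_contra hlt
    apply hcon
    refine ⟨X, Y, hX, hY, hXY, hn, ?_⟩
    rw [card_compl, card_union_of_disjoint hXY] at hlt
    omega
  obtain ⟨X, Y, hX, hY, hXY, hn, hcard⟩ := key
  have hn' : ∀ a ∈ X, ∀ b ∈ Y, G.Adj a b → s(a, b) = s(x, y) := by
    intro a ha b hb hab
    by_contra hne
    apply hn a ha b hb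
    rw [SimpleGraph.deleteEdges_adj]
    exact ⟨hab, by simpa using hne⟩
  have hex : ∃ a ∈ X, ∃ b ∈ Y, G.Adj a b := by
    by_contra hcon
    push Not at hcon
    have := sep_num hG X Y hX hY hXY hcon
    omega
  obtain ⟨a, ha, b, hb, hab⟩ := hex
  have heq := hn' a ha b hb hab
  rw [Sym2.eq_iff] at heq
  rcases heq with ⟨rfl, rfl⟩ | ⟨rfl, rfl⟩
  · refine ⟨X, Y, ha, hb, hXY, ?_, ?_⟩
    · intro c hc d hd hcd
      have := hn' c hc d hd hcd
      rw [Sym2.eq_iff] at this
      rcases this with ⟨rfl, rfl⟩ | ⟨rfl, rfl⟩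
      · exact ⟨rfl, rfl⟩
      · exact absurd hd (fun h => disjoint_left.1 hXY ha h)
    · have := csep_card hG X Y ha hb hXY (by
        intro c hc d hd hcd
        have := hn' c hc d hd hcd
        rw [Sym2.eq_iff] at this
        rcases this with ⟨rfl, rfl⟩ | ⟨rfl, rfl⟩
        · exact ⟨rfl, rfl⟩
        · exact absurd hd (fun h => disjoint_left.1 hXY ha h))
      omega
  · have hE : ∀ c ∈ Y, ∀ d ∈ X, G.Adj c d → c = b ∧ d = a := by
      intro c hcY d hdX hcd
      have := hn' d hdX c hcY hcd.symm
      rw [Sym2.eq_iff] at this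
      rcases this with ⟨e1, e2⟩ | ⟨e1, e2⟩
      · exact absurd (e1 ▸ hdX : b ∈ X) (fun h => disjoint_left.1 hXY h hb)
      · exact ⟨e2, e1⟩
    refine ⟨Y, X, hb, ha, hXY.symm, hE, ?_⟩
    have := csep_card hG Y X hb ha hXY.symm hE
    omega

/-- the crucial step: the separation of the next edge is smaller -/
theorem csep_step {G : SimpleGraph V} {m : ℕ} (hG : KConn G m) {x y z : V} {A B C D : Finset V}
    (h1 : CSep G m x y A B) (h2 : CSep G m y z C D) (hxy : G.Adj x y) (hyz : G.Adj y z)
    (hxz : z ≠ x)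
    (hdeg : ∃ S : Finset V, m + 1 ≤ S.card ∧ ∀ u ∈ S, G.Adj y u) : D.card < B.card := by
  obtain ⟨hxA, hyB, hAB, hEAB, hc1⟩ := h1
  obtain ⟨hyC, hzD, hCD, hECD, hc2⟩ := h2
  have hyA : y ∉ A := fun h => disjoint_left.1 hAB h hyB
  have hyD : y ∉ D := fun h => disjoint_left.1 hCD hyC h
  -- the union with two different edges
  have hd1 : Disjoint (B ∩ C) (A ∪ D) := by
    rw [disjoint_left]
    intro u hu hu'
    rw [mem_inter] at hu
    rw [mem_union] at hu'
    rcases hu' with h | h
    · exact disjoint_left.1 hAB h hu.1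
    · exact disjoint_left.1 hCD hu.2 h
  have hstar : (B ∩ C).card + (A ∪ D).card + m ≤ Fintype.card V + 1 := by
    by_cases hne : ((B ∩ C).erase y).Nonempty
    · have := sep_num hG ((B ∩ C).erase y) (A ∪ D) hne ⟨x, mem_union_left _ hxA⟩
        (disjoint_of_subset_left (erase_subset _ _) hd1) (by
          intro u hu v hv huv
          have huy := ne_of_mem_erase hu
          have hu' := mem_inter.1 (mem_of_mem_erase hu)
          rcases mem_union.1 hv with h | h
          · exact huy (hEAB v h u hu'.1 huv.symm).2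
          · exact huy (hECD u hu'.2 v h huv).1)
      rw [card_erase_of_mem (mem_inter.2 ⟨hyB, hyC⟩)] at this
      have : 1 ≤ (B ∩ C).card := card_pos.2 ⟨y, mem_inter.2 ⟨hyB, hyC⟩⟩
      omega
    · rw [not_nonempty_iff_eq_empty] at hne
      have hBC : (B ∩ C).card = 1 := by
        have := card_erase_of_mem (mem_inter.2 ⟨hyB, hyC⟩ : y ∈ B ∩ C)
        rw [hne, card_empty] at this
        have h1 : 1 ≤ (B ∩ C).card := card_pos.2 ⟨y, mem_inter.2 ⟨hyB, hyC⟩⟩
        omega
      obtain ⟨S, hS, hSadj⟩ := hdeg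
      have hsub : S ⊆ ((A ∪ D).erase x |>.erase z)ᶜ.erase y := by
        intro u hu
        rw [mem_erase, mem_compl, mem_erase, mem_erase]
        refine ⟨(hSadj u hu).ne', ?_⟩
        rintro ⟨huz, hux, hu'⟩
        rcases mem_union.1 hu' with h | h
        · exact hux (hEAB u h y hyB (hSadj u hu).symm).1
        · exact huz (hECD y hyC u h (hSadj u hu)).2
      have hcard := card_le_card hsub
      have hyAD : y ∉ A ∪ D := by
        rw [mem_union]; rintro (h | h)
        · exact hyA h
        · exact hyD h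
      rw [card_erase_of_mem (by
        rw [mem_compl, mem_erase, mem_erase]
        exact fun h => hyAD h.2.2), card_compl,
        card_erase_of_mem (mem_erase.2 ⟨hxz, mem_union_right _ hzD⟩),
        card_erase_of_mem (mem_union_left _ hxA)] at hcard
      have h3 : (A ∪ D).card ≤ Fintype.card V := card_le_univ _
      have h2' : 2 ≤ (A ∪ D).card := by
        have : ({x, z} : Finset V) ⊆ A ∪ D := by
          intro u hu
          rw [mem_insert, mem_singleton] at hu
          rcases hu with rfl | rfl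
          · exact mem_union_left _ hxA
          · exact mem_union_right _ hzD
        have := card_le_card this
        rwa [card_pair hxz.symm] at this
      omega
  have hinter : A ∩ D = ∅ := by
    by_contra hne
    have hne' : (A ∩ D).Nonempty := nonempty_iff_ne_empty.2 hne
    have hd2 : Disjoint (A ∩ D) (B ∪ C) := by
      rw [disjoint_left]
      intro u hu hu'
      rw [mem_inter] at hu
      rcases mem_union.1 hu' with h | h
      · exact disjoint_left.1 hAB hu.1 h
      · exact disjoint_left.1 hCD h hu.2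
    have := sep_num hG (A ∩ D) (B ∪ C) hne' ⟨y, mem_union_left _ hyB⟩ hd2 (by
      intro u hu v hv huv
      rw [mem_inter] at hu
      rcases mem_union.1 hv with h | h
      · -- u = x in D, adjacent to y in C
        obtain ⟨rfl, rfl⟩ := hEAB u hu.1 v h huv
        exact hxz (hECD v hyC u hu.2 huv.symm).2.symm
      · obtain ⟨rfl, rfl⟩ := hECD v h u hu.2 huv.symm
        exact hxz (hEAB u hu.1 v hyB huv).1)
    have e1 := card_union_add_card_inter A D
    have e2 := card_union_add_card_inter B C
    omega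
  have e1 := card_union_add_card_inter A D
  rw [hinter, card_empty, add_zero] at e1
  have : 1 ≤ (B ∩ C).card := card_pos.2 ⟨y, mem_inter.2 ⟨hyB, hyC⟩⟩
  omega

/-- a set of critical edges on a support of large degrees in which every end has a second edge is
empty -/
theorem mader_core {G : SimpleGraph V} {m : ℕ} (hG : KConn G m) (R : V → V → Prop)
    (hadj : ∀ x y, R x y → G.Adj x y)
    (hdeg : ∀ x y, R x y → ∃ S : Finset V, m + 1 ≤ S.card ∧ ∀ u ∈ S, G.Adj y u)
    (hcrit : ∀ x y, R x y → ¬ KConn (G.deleteEdges {s(x, y)}) m)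
    (hnext : ∀ x y, R x y → ∃ z, z ≠ x ∧ R y z) (x y : V) (hxy : R x y) : False := by
  classical
  have hmain : ∀ c : ℕ, ∀ x y : V, R x y → ∀ A B, CSep G m x y A B → B.card ≤ c → False := by
    intro c
    induction c with
    | zero =>
      intro x y _ A B h hB
      have : 1 ≤ B.card := card_pos.2 ⟨y, h.2.1⟩
      omega
    | succ c ih =>
      intro x y hR A B h hB
      obtain ⟨z, hzx, hyz⟩ := hnext x y hR
      obtain ⟨C, D, h2⟩ := exists_csep hG (hadj y z hyz) (hcrit y z hyz)
      have := csep_step hG h h2 (hadj x y hR) (hadj y z hyz) hzx (hdeg x y hR)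
      exact ih y z hyz C D h2 (by omega)
  obtain ⟨A, B, h⟩ := exists_csep hG (hadj x y hxy) (hcrit x y hxy)
  exact hmain B.card x y hxy A B h le_rfl

end

/-- a loopless graph with at least as many edges as vertices has a nonempty part of minimum degree
at least 2 -/
theorem two_core {V : Type} [Fintype V] [DecidableEq V] (K : Finset (Sym2 V))
    (hK : ∀ x : V, s(x, x) ∉ K) : ∀ c : ℕ, ∀ W : Finset V, W.card = c → W.Nonempty →
      W.card ≤ (K.filter (fun e => ∀ v ∈ e, v ∈ W)).card →
      ∃ W' : Finset V, W'.Nonempty ∧ ∀ y ∈ W', ∀ x : V,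
        ∃ z ∈ W', z ≠ x ∧ s(y, z) ∈ K := by
  intro c
  induction c with
  | zero =>
    intro W hc hW
    rw [card_eq_zero] at hc
    exact absurd hc hW.ne_empty
  | succ c ih =>
    intro W hc hW hcard
    by_cases hall : ∀ y ∈ W, ∀ x : V, ∃ z ∈ W, z ≠ x ∧ s(y, z) ∈ K
    · exact ⟨W, hW, hall⟩
    push Not at hall
    obtain ⟨y, hy, x, hx⟩ := hall
    -- at most one edge at y
    have hsub : (K.filter (fun e => ∀ v ∈ e, v ∈ W)) ⊆
        insert s(y, x) (K.filter (fun e => ∀ v ∈ e, v ∈ W.erase y)) := by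
      intro e he
      rw [mem_filter] at he
      rw [mem_insert, mem_filter]
      by_cases hye : y ∈ e
      · left
        obtain ⟨z, rfl⟩ := Sym2.mem_iff_exists.1 hye
        have hz : z ∈ W := he.2 z (by simp)
        by_contra hne
        exact hx z hz (fun h => hne (by rw [h])) he.1
      · right
        refine ⟨he.1, fun v hv => mem_erase.2 ⟨?_, he.2 v hv⟩⟩
        rintro rfl
        exact hye hv
    have h1 := (card_le_card hsub).trans (card_insert_le _ _)
    have h2 : (W.erase y).card = c := by rw [card_erase_of_mem hy, hc]; rfl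
    have hne : (W.erase y).Nonempty := by
      rw [nonempty_iff_ne_empty]
      intro h
      have hW1 : W = {y} := by
        ext u
        constructor
        · intro hu
          by_contra huy
          rw [mem_singleton] at huy
          have : u ∈ W.erase y := mem_erase.2 ⟨huy, hu⟩
          rw [h] at this
          exact absurd this (notMem_empty _)
        · intro hu
          rw [mem_singleton.1 hu]
          exact hy
      have h0 : K.filter (fun e => ∀ v ∈ e, v ∈ W) = ∅ := by
        rw [filter_eq_empty_iff]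
        intro e he hall
        induction e using Sym2.ind with
        | _ u v =>
          have hu := hall u (by simp)
          have hv := hall v (by simp)
          rw [hW1, mem_singleton] at hu hv
          subst hu
          subst hv
          exact hK _ he
      rw [h0, card_empty] at hcard
      omega
    exact ih (W.erase y) h2 hne (by omega)

/-- critical edges inside a set `W` of vertices of degree more than `m`: fewer than `|W|` -/
theorem mader_in {V : Type} [Fintype V] [DecidableEq V] (G : SimpleGraph V) (m : ℕ)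
    (hG : KConn G m) (K : Finset (Sym2 V)) (W : Finset V) (hW : W.Nonempty)
    (hKW : ∀ e ∈ K, ∀ v ∈ e, v ∈ W)
    (hK : ∀ x y : V, s(x, y) ∈ K → G.Adj x y ∧
        (∃ S : Finset V, m + 1 ≤ S.card ∧ ∀ z ∈ S, G.Adj x z) ∧
        ¬ KConn (G.deleteEdges {s(x, y)}) m) : K.card < W.card := by
  by_contra hlt
  push Not at hlt
  have hloop : ∀ x : V, s(x, x) ∉ K := fun x hx => (hK x x hx).1.ne rfl
  obtain ⟨W', ⟨y, hy⟩, hW'⟩ := two_core K hloop W.card W rfl hW (by
    refine hlt.trans (le_of_eq ?_)
    congr 1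
    ext e
    rw [mem_filter]
    exact ⟨fun h => ⟨h, hKW e h⟩, fun h => h.1⟩)
  obtain ⟨z, hz, -, hyz⟩ := hW' y hy y
  refine mader_core hG (fun u v => s(u, v) ∈ K ∧ u ∈ W' ∧ v ∈ W') ?_ ?_ ?_ ?_ y z ⟨hyz, hy, hz⟩
  · rintro u v ⟨h1, -, -⟩
    exact (hK u v h1).1
  · rintro u v ⟨h1, -, -⟩
    rw [Sym2.eq_swap] at h1
    exact (hK v u h1).2.1
  · rintro u v ⟨h1, -, -⟩
    exact (hK u v h1).2.2
  · rintro u v ⟨h1, h2, h3⟩
    obtain ⟨w, hw, hwu, hvw⟩ := hW' v h3 u
    exact ⟨w, hwu, hvw, h3, hw⟩

theorem mader : MaderStmt := by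
  intro V _ _ G m hG K hK
  have hne : (univ : Finset V).Nonempty := by
    rw [← card_pos, card_univ]
    have := hG.1
    omega
  have := mader_in G m hG K univ hne (fun _ _ _ _ => mem_univ _) hK
  rwa [card_univ] at this

end Pool.Agent.Lib_helper74.Rem
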