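import Pool.Agent.Lib_helper74.Rem.Step

/-!
# The random greedy process (module M3)
-/

set_option autoImplicit false

namespace Pool.Agent.Lib_helper74.Rem

open Finset

section Proc

variable {E W : Type} [Fintype E] [Fintype W] [DecidableEq E] [DecidableEq W]
  (a b : E → W) (Adm : Finset W → Finset E → Prop)

open Classical in
/-- the new set of chosen edges -/
noncomputable def nF (U : Finset W) (F : Finset E) : Outc E W → Finset E
  | none => F
  | some (Sum.inl e) => if Adm ((U.erase (a e)).erase (b e)) (insert e F) then insert e F else F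
  | some (Sum.inr _) => F

theorem adm_next (hmono : ∀ U U' F, Adm U F → U' ⊆ U → Adm U' F) {U : Finset W} {F : Finset E}
    (h : Adm U F) (o : Outc E W) : Adm (nU a b U o) (nF a b Adm U F o) := by
  match o with
  | none => exact h
  | some (Sum.inl e) =>
    simp only [nU, nF]
    split_ifs with h1
    · exact h1
    · exact hmono _ _ _ h ((erase_subset _ _).trans (erase_subset _ _))
  | some (Sum.inr x) => exact hmono _ _ _ h (erase_subset _ _)

theorem expect_F {U : Finset W} {F : Finset E} {N D : ℝ} {β : ℕ} (hN : 0 < N) (hD : 0 < D)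
    (hF : ∀ e ∈ F, a e ∉ U)
    (hβ : ∀ B : Finset E, (∀ e ∈ B, a e ∈ U ∧ b e ∈ U ∧
      ¬ Adm ((U.erase (a e)).erase (b e)) (insert e F)) → B.card ≤ β) :
    (F.card : ℝ) + ∑ e, we a b U N D e - β / (N * D) ≤
      ∑ o, pr a b U (we a b U N D) N o * ((nF a b Adm U F o).card : ℝ) := by
  classical
  set w := we a b U N D with hw
  have h1 : ∀ o : Outc E W, pr a b U w N o * ((nF a b Adm U F o).card : ℝ) =
      pr a b U w N o * F.card + pr a b U w N o * (((nF a b Adm U F o).card : ℝ) - F.card) := by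
    intro o; ring
  rw [sum_congr rfl (fun o _ => h1 o), sum_add_distrib, ← sum_mul, sum_pr, one_mul]
  have h2 : ∑ o, pr a b U w N o * (((nF a b Adm U F o).card : ℝ) - F.card) =
      ∑ e, w e * (((nF a b Adm U F (some (Sum.inl e))).card : ℝ) - F.card) := by
    rw [Fintype.sum_option, Fintype.sum_sum_type]
    simp [nF, pr]
  rw [h2]
  set B : Finset E := univ.filter (fun e => a e ∈ U ∧ b e ∈ U ∧
      ¬ Adm ((U.erase (a e)).erase (b e)) (insert e F)) with hB
  have hBc : B.card ≤ β := hβ B (fun e he => (mem_filter.1 he).2)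
  have h3 : ∀ e ∈ (univ : Finset E), w e - (if e ∈ B then w e else 0) ≤
      w e * (((nF a b Adm U F (some (Sum.inl e))).card : ℝ) - F.card) := by
    intro e _
    by_cases hEU : a e ∈ U ∧ b e ∈ U
    · by_cases hA : Adm ((U.erase (a e)).erase (b e)) (insert e F)
      · have he : e ∉ F := fun h => hF e h hEU.1
        have h4 : nF a b Adm U F (some (Sum.inl e)) = insert e F := by
          simp only [nF]; rw [if_pos hA]
        rw [h4, card_insert_of_notMem he, if_neg (fun h => (mem_filter.1 h).2.2.2 hA)]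
        push_cast
        linarith
      · have h4 : nF a b Adm U F (some (Sum.inl e)) = F := by
          simp only [nF]; rw [if_neg hA]
        rw [h4, if_pos (mem_filter.2 ⟨mem_univ _, hEU.1, hEU.2, hA⟩)]
        simp
    · have : w e = 0 := by rw [hw]; unfold we; rw [if_neg hEU]
      rw [this]; simp
  have h4 := sum_le_sum h3
  rw [sum_sub_distrib] at h4
  have h5 : ∑ e, (if e ∈ B then w e else 0) ≤ β / (N * D) := by
    rw [← sum_filter]
    calc ∑ e ∈ univ.filter (fun e => e ∈ B), w e ≤ ∑ _e ∈ univ.filter (fun e => e ∈ B),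
          1 / (N * D) := sum_le_sum fun e _ => we_le a b U hN hD e
      _ = (univ.filter (fun e => e ∈ B)).card / (N * D) := by
          rw [sum_const, nsmul_eq_mul]; ring
      _ = B.card / (N * D) := by
          congr 3; ext e; simp
      _ ≤ β / (N * D) := by gcongr
  linarith

/-- the lower bound for the expected size after `t` steps -/
noncomputable def GG (e k N : ℝ) (t : ℕ) : ℝ :=
  e / k * (1 - 1 / N) * (1 - ((1 - 2 / N) / (1 - 1 / N)) ^ t) - 2 * t / Real.sqrt k -
    5 * (N / k) / (1 - 1 / N) ^ t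

theorem GG_step {e k N : ℝ} (hk : 0 < k) (hN : 2 ≤ N) (t : ℕ) :
    GG e k N (t + 1) ≤ GG e k N t +
      (e * (1 - 2 / N) ^ t - N * (1 - 1 / N) ^ t * Real.sqrt k -
        (1 / (4 * Real.sqrt k) + 1 / (k * (1 - 1 / N) ^ t)) * (4 * k * N * (1 - 1 / N) ^ t)) /
        (N * (k * (1 - 1 / N) ^ t)) - N / (N * (k * (1 - 1 / N) ^ t)) := by
  have hN0 : 0 < N := by linarith
  have hq : 0 < 1 - 1 / N := by
    have : 1 / N < 1 := by rw [div_lt_one hN0]; linarith
    linarith
  set q := 1 - 1 / N with hqdef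
  have hqt : 0 < q ^ t := pow_pos hq t
  have hsk : 0 < Real.sqrt k := Real.sqrt_pos.2 hk
  have hsq : Real.sqrt k ^ 2 = k := Real.sq_sqrt hk.le
  set ρ := (1 - 2 / N) / q with hρ
  have h2N : 1 - 2 / N = ρ * q := by rw [hρ]; field_simp
  have h1 : e * (1 - 2 / N) ^ t / (N * (k * q ^ t)) = e / k * (ρ ^ t / N) := by
    rw [h2N, mul_pow]; field_simp
  have h2 : N * q ^ t * Real.sqrt k / (N * (k * q ^ t)) = 1 / Real.sqrt k := by
    rw [div_eq_div_iff (by positivity) (by positivity)]
    have : Real.sqrt k * Real.sqrt k = k := by rw [← sq]; exact hsq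
    calc N * q ^ t * Real.sqrt k * Real.sqrt k = N * q ^ t * (Real.sqrt k * Real.sqrt k) := by ring
      _ = 1 * (N * (k * q ^ t)) := by rw [this]; ring
  have h3 : (1 / (4 * Real.sqrt k) + 1 / (k * q ^ t)) * (4 * k * N * q ^ t) /
      (N * (k * q ^ t)) = 1 / Real.sqrt k + 4 / (k * q ^ t) := by
    field_simp
  have h4 : N / (N * (k * q ^ t)) = 1 / (k * q ^ t) := by field_simp
  have hρ1 : (1 - 1 / N) * (1 - ρ) = 1 / N := by
    have : q * (1 - ρ) = q - ρ * q := by ring
    rw [← hqdef, this, ← h2N, hqdef]; ring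
  have hstep1 : e / k * q * (1 - ρ ^ (t + 1)) = e / k * q * (1 - ρ ^ t) + e / k * (ρ ^ t / N) := by
    have : q * (ρ ^ t * (1 - ρ)) = ρ ^ t * (1 / N) := by rw [← hρ1]; ring
    have h5 : e / k * q * (1 - ρ ^ (t + 1)) = e / k * q * (1 - ρ ^ t) +
        e / k * (q * (ρ ^ t * (1 - ρ))) := by rw [pow_succ]; ring
    rw [h5, this]; ring
  have hstep2 : 5 * (N / k) / q ^ t + 5 / (k * q ^ t) ≤ 5 * (N / k) / q ^ (t + 1) := by
    have h5 : 5 * (N / k) / q ^ (t + 1) - (5 * (N / k) / q ^ t + 5 / (k * q ^ t)) =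
        5 * (N / q - N - 1) / (k * q ^ t) := by
      rw [pow_succ]; field_simp; ring
    have h6 : 0 ≤ N / q - N - 1 := by
      have h7 : N / q - N - 1 = (N - q * (N + 1)) / q := by
        rw [eq_div_iff hq.ne', sub_mul, sub_mul, div_mul_cancel₀ _ hq.ne']; ring
      rw [h7]
      apply div_nonneg _ hq.le
      have h8 : q * (N + 1) = N - 1 / N := by rw [hqdef]; field_simp; ring
      rw [h8]
      have : 0 < 1 / N := by positivity
      linarith
    have : 0 ≤ 5 * (N / q - N - 1) / (k * q ^ t) := by positivity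
    linarith
  have hsplit : (e * (1 - 2 / N) ^ t - N * q ^ t * Real.sqrt k -
        (1 / (4 * Real.sqrt k) + 1 / (k * q ^ t)) * (4 * k * N * q ^ t)) / (N * (k * q ^ t)) =
      e / k * (ρ ^ t / N) - 1 / Real.sqrt k - (1 / Real.sqrt k + 4 / (k * q ^ t)) := by
    rw [sub_div, sub_div, h1, h2, h3]
  rw [hsplit, h4]
  unfold GG
  rw [← hqdef, ← hρ, hstep1]
  have h5 : (2 : ℝ) * ((t + 1 : ℕ) : ℝ) / Real.sqrt k = 2 * t / Real.sqrt k +
      2 * (1 / Real.sqrt k) := by push_cast; ring
  rw [h5]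
  have h6 : 5 / (k * q ^ t) = 4 / (k * q ^ t) + 1 / (k * q ^ t) := by ring
  rw [h6] at hstep2
  linarith

theorem process (k β : ℕ) (hab : ∀ e, a e ≠ b e)
    (hs : ∀ e e', ((a e = a e' ∧ b e = b e') ∨ (a e = b e' ∧ b e = a e')) → e = e')
    (hk1 : 1 ≤ k) (hk : ∀ w, (univ.filter (fun e => a e = w ∨ b e = w)).card ≤ k)
    (hW : 2 ≤ Fintype.card W) (hβW : β ≤ Fintype.card W) (h0 : Adm univ ∅)
    (hmono : ∀ U U' F, Adm U F → U' ⊆ U → Adm U' F)
    (hF : ∀ U F e, Adm U F → e ∈ F → a e ∉ U)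
    (hβ : ∀ U F, Adm U F → ∀ B : Finset E, (∀ e ∈ B, a e ∈ U ∧ b e ∈ U ∧
      ¬ Adm ((U.erase (a e)).erase (b e)) (insert e F)) → B.card ≤ β) (t : ℕ) :
    ∃ (I : Type) (_ : Fintype I) (p : I → ℝ) (Us : I → Finset W) (Fs : I → Finset E),
      (∀ i, 0 ≤ p i) ∧ ∑ i, p i = 1 ∧ (∀ i, Adm (Us i) (Fs i)) ∧
      ∑ i, p i * ((Us i).card : ℝ) = Fintype.card W * (1 - 1 / (Fintype.card W : ℝ)) ^ t ∧
      (Fintype.card E : ℝ) * (1 - 2 / (Fintype.card W : ℝ)) ^ t ≤
        ∑ i, p i * XX a b (Us i) ∧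
      ∑ i, p i * ZZ a b ((1 - 1 / (Fintype.card W : ℝ)) ^ t) (Us i) ≤
        4 * k * Fintype.card W * (1 - 1 / (Fintype.card W : ℝ)) ^ t ∧
      GG (Fintype.card E) k (Fintype.card W) t ≤ ∑ i, p i * ((Fs i).card : ℝ) := by
  have hk0 : (0 : ℝ) < k := by exact_mod_cast hk1
  have hN2 : (2 : ℝ) ≤ Fintype.card W := by exact_mod_cast hW
  set N : ℝ := (Fintype.card W : ℝ) with hN
  have hN0 : 0 < N := by linarith
  have hq : 0 < 1 - 1 / N := by
    have : 1 / N < 1 := by rw [div_lt_one hN0]; linarith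
    linarith
  have hq2 : 1 / 2 ≤ 1 - 1 / N := by
    have : 1 / N ≤ 1 / 2 := by gcongr
    linarith
  have h2N : 0 ≤ 1 - 2 / N := by
    have : 2 / N ≤ 1 := by rw [div_le_one hN0]; exact hN2
    linarith
  induction t with
  | zero =>
    refine ⟨Unit, inferInstance, fun _ => 1, fun _ => univ, fun _ => ∅, fun _ => by norm_num,
      by simp, fun _ => h0, ?_, ?_, ?_, ?_⟩
    · simp [hN, card_univ]
    · simp [XX, card_univ]
    · simp [ZZ]
      positivity
    · simp [GG]
      positivity
  | succ t ih =>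
    obtain ⟨I, hI, p, Us, Fs, hp0, hp1, hAdm, hU, hX, hZ, hG⟩ := ih
    set q := 1 - 1 / N with hqd
    set s := q ^ t with hsd
    have hs0 : 0 < s := pow_pos hq t
    have hks : 0 < (k : ℝ) * s := by positivity
    set w : I → E → ℝ := fun i => we a b (Us i) N (k * s) with hw
    have hw0 : ∀ i e, 0 ≤ w i e := fun i e => we_nonneg a b (Us i) hN0 hks e
    have hwU : ∀ i e, ¬ (a e ∈ Us i ∧ b e ∈ Us i) → w i e = 0 := fun i e h => by
      simp only [hw]; unfold we; rw [if_neg h]
    have hl : ∀ i, ∀ x ∈ Us i, load a b (w i) x ≤ 1 / N := fun i x hx =>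
      we_load a b (Us i) hN0 hks x hx
    have hUN : ∀ i, ((Us i).card : ℝ) ≤ N := fun i => by
      rw [hN]; exact_mod_cast card_le_univ _
    have hsum : ∀ φ : I → Outc E W → ℝ,
        ∑ io : I × Outc E W, p io.1 * pr a b (Us io.1) (w io.1) N io.2 * φ io.1 io.2 =
        ∑ i, p i * ∑ o, pr a b (Us i) (w i) N o * φ i o := by
      intro φ
      rw [Fintype.sum_prod_type]
      refine sum_congr rfl fun i _ => ?_
      rw [mul_sum]
      exact sum_congr rfl fun o _ => by ring
    refine ⟨I × Outc E W, inferInstance,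
      fun io => p io.1 * pr a b (Us io.1) (w io.1) N io.2,
      fun io => nU a b (Us io.1) io.2, fun io => nF a b Adm (Us io.1) (Fs io.1) io.2,
      ?_, ?_, ?_, ?_, ?_, ?_, ?_⟩
    · intro io
      exact mul_nonneg (hp0 _) (pr_nonneg a b (Us io.1) (w io.1) hN0 (hUN _) (hw0 _) (hwU _)
        (hl _) io.2)
    · have := hsum (fun _ _ => 1)
      simp only [mul_one] at this
      rw [this]
      rw [← hp1]
      refine sum_congr rfl fun i _ => ?_
      rw [sum_pr, mul_one]
    · intro io
      exact adm_next a b Adm hmono (hAdm io.1) io.2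
    · rw [hsum (fun i o => ((nU a b (Us i) o).card : ℝ))]
      have : ∀ i ∈ (univ : Finset I), p i * ∑ o, pr a b (Us i) (w i) N o *
          ((nU a b (Us i) o).card : ℝ) = q * (p i * (Us i).card) := by
        intro i _
        rw [expect_card a b (Us i) (w i) hab (hwU i)]
        ring
      rw [sum_congr rfl this, ← mul_sum, hU, pow_succ]
      ring
    · rw [hsum (fun i o => XX a b (nU a b (Us i) o))]
      calc (Fintype.card E : ℝ) * (1 - 2 / N) ^ (t + 1) =
            (1 - 2 / N) * (Fintype.card E * (1 - 2 / N) ^ t) := by rw [pow_succ]; ring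
        _ ≤ (1 - 2 / N) * ∑ i, p i * XX a b (Us i) := mul_le_mul_of_nonneg_left hX h2N
        _ = ∑ i, p i * ((1 - 2 / N) * XX a b (Us i)) := by
            rw [mul_sum]; exact sum_congr rfl fun i _ => by ring
        _ ≤ _ := sum_le_sum fun i _ => mul_le_mul_of_nonneg_left
            (expect_X a b (Us i) (w i) (hw0 i) (hwU i) (hl i)) (hp0 i)
    · have hqs : q ^ (t + 1) = (1 - 1 / N) * s := by rw [pow_succ, ← hqd, hsd]; ring
      rw [hsum (fun i o => ZZ a b (q ^ (t + 1)) (nU a b (Us i) o)), hqs]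
      calc ∑ i, p i * ∑ o, pr a b (Us i) (w i) N o *
            ZZ a b ((1 - 1 / N) * s) (nU a b (Us i) o) ≤
            ∑ i, p i * ((1 - 1 / N) ^ 2 * ZZ a b s (Us i) + 2 * k * (Us i).card / N) :=
            sum_le_sum fun i _ => mul_le_mul_of_nonneg_left
              (expect_Z a b (Us i) (w i) hab hs (hw0 i) (hwU i) hN0 (hl i) k hk s) (hp0 i)
        _ = (1 - 1 / N) ^ 2 * ∑ i, p i * ZZ a b s (Us i) +
            2 * k / N * ∑ i, p i * ((Us i).card : ℝ) := by
            rw [mul_sum, mul_sum, ← sum_add_distrib]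
            exact sum_congr rfl fun i _ => by ring
        _ ≤ (1 - 1 / N) ^ 2 * (4 * k * N * s) + 2 * k / N * (N * s) := by
            rw [hU]
            gcongr
        _ ≤ 4 * k * N * ((1 - 1 / N) * s) := by
            have h1 : 4 * k * N * ((1 - 1 / N) * s) - ((1 - 1 / N) ^ 2 * (4 * k * N * s) +
                2 * k / N * (N * s)) = k * s * (4 * (1 - 1 / N) - 2) := by
              field_simp
              ring
            have h2 : 0 ≤ k * s * (4 * (1 - 1 / N) - 2) := by
              apply mul_nonneg hks.le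
              rw [← hqd]; linarith
            linarith
    · rw [hsum (fun i o => ((nF a b Adm (Us i) (Fs i) o).card : ℝ))]
      have hgain : ∀ i ∈ (univ : Finset I), p i * ((Fs i).card +
          (XX a b (Us i) - (Us i).card * Real.sqrt k -
            (1 / (4 * Real.sqrt k) + 1 / (k * s)) * ZZ a b s (Us i)) / (N * (k * s)) -
          N / (N * (k * s))) ≤
          p i * ∑ o, pr a b (Us i) (w i) N o * ((nF a b Adm (Us i) (Fs i) o).card : ℝ) := by
        intro i _
        refine mul_le_mul_of_nonneg_left ?_ (hp0 i)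
        have h1 := expect_F a b Adm (U := Us i) (F := Fs i) (β := β) hN0 hks
          (fun e he => hF _ _ e (hAdm i) he) (hβ _ _ (hAdm i))
        have h2 := we_sum a b (Us i) (N := N) (s := s) (k := k) hN0 hs0 hk1
          (fun v => AA_univ_le a b hab k v (hk v))
        have h3 : (β : ℝ) / (N * (k * s)) ≤ N / (N * (k * s)) := by
          gcongr
          rw [hN]; exact_mod_cast hβW
        simp only [hw]
        linarith
      refine le_trans ?_ (sum_le_sum hgain)
      have h4 : ∑ i, p i * (((Fs i).card : ℝ) +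
          (XX a b (Us i) - (Us i).card * Real.sqrt k -
            (1 / (4 * Real.sqrt k) + 1 / (k * s)) * ZZ a b s (Us i)) / (N * (k * s)) -
          N / (N * (k * s))) = ∑ i, p i * ((Fs i).card : ℝ) +
          (∑ i, p i * XX a b (Us i) - (∑ i, p i * ((Us i).card : ℝ)) * Real.sqrt k -
            (1 / (4 * Real.sqrt k) + 1 / (k * s)) * ∑ i, p i * ZZ a b s (Us i)) /
            (N * (k * s)) - N / (N * (k * s)) := by
        have h5 : ∀ i, p i * (((Fs i).card : ℝ) +
          (XX a b (Us i) - (Us i).card * Real.sqrt k -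
            (1 / (4 * Real.sqrt k) + 1 / (k * s)) * ZZ a b s (Us i)) / (N * (k * s)) -
          N / (N * (k * s))) = p i * ((Fs i).card : ℝ) + (p i * XX a b (Us i) -
            p i * ((Us i).card : ℝ) * Real.sqrt k -
            (1 / (4 * Real.sqrt k) + 1 / (k * s)) * (p i * ZZ a b s (Us i))) / (N * (k * s)) -
            p i * (N / (N * (k * s))) := fun i => by ring
        rw [sum_congr rfl (fun i _ => h5 i), sum_sub_distrib, sum_add_distrib, ← sum_div,
          sum_sub_distrib, sum_sub_distrib, ← sum_mul, ← mul_sum, ← sum_mul, hp1, one_mul]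
      rw [h4]
      have h6 := GG_step (e := (Fintype.card E : ℝ)) (k := (k : ℝ)) (N := N) hk0 hN2 t
      rw [← hqd, ← hsd] at h6
      have h7 : ((Fintype.card E : ℝ) * (1 - 2 / N) ^ t - N * s * Real.sqrt k -
          (1 / (4 * Real.sqrt k) + 1 / (k * s)) * (4 * k * N * s)) / (N * (k * s)) ≤
          (∑ i, p i * XX a b (Us i) - (∑ i, p i * ((Us i).card : ℝ)) * Real.sqrt k -
            (1 / (4 * Real.sqrt k) + 1 / (k * s)) * ∑ i, p i * ZZ a b s (Us i)) /
            (N * (k * s)) := by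
        rw [hU]
        gcongr
      linarith

end Proc

theorem proc : ProcStmt := by
  intro E W _ _ _ _ a b k β Adm hab hs hk1 hk hW hβW h0 hmono hF hβ T
  obtain ⟨I, hI, p, Us, Fs, hp0, hp1, hAdm, -, -, -, hG⟩ :=
    process a b Adm k β hab hs hk1 hk hW hβW h0 hmono hF hβ T
  have hk0 : (0 : ℝ) < k := by exact_mod_cast hk1
  have hN2 : (2 : ℝ) ≤ Fintype.card W := by exact_mod_cast hW
  set N : ℝ := (Fintype.card W : ℝ) with hN
  have hN0 : 0 < N := by linarith
  have hq : 0 < 1 - 1 / N := by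
    have : 1 / N < 1 := by rw [div_lt_one hN0]; linarith
    linarith
  -- some outcome is at least the expectation
  have hex : ∃ i, GG (Fintype.card E) k N T ≤ ((Fs i).card : ℝ) := by
    by_contra hcon
    push Not at hcon
    have h1 : ∑ i, p i * ((Fs i).card : ℝ) < ∑ i, p i * GG (Fintype.card E) k N T := by
      have hne : ∃ i ∈ (univ : Finset I), 0 < p i := by
        by_contra hcon2
        push Not at hcon2
        have : ∑ i, p i ≤ 0 := sum_nonpos hcon2
        linarith
      obtain ⟨i, hi, hpi⟩ := hne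
      refine sum_lt_sum (fun j _ => mul_le_mul_of_nonneg_left (hcon j).le (hp0 j)) ⟨i, hi, ?_⟩
      exact mul_lt_mul_of_pos_left (hcon i) hpi
    rw [← sum_mul, hp1, one_mul] at h1
    linarith
  obtain ⟨i, hi⟩ := hex
  refine ⟨Us i, Fs i, hAdm i, le_trans ?_ hi⟩
  unfold GG
  have h1 : ((1 - 2 / N) / (1 - 1 / N)) ^ T ≤ (1 - 1 / N) ^ T := by
    have h2N : 0 ≤ 1 - 2 / N := by
      have : 2 / N ≤ 1 := by rw [div_le_one hN0]; exact hN2
      linarith
    refine pow_le_pow_left₀ (div_nonneg h2N hq.le) ?_ T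
    rw [div_le_iff₀ hq]
    have : (1 - 1 / N) * (1 - 1 / N) = 1 - 2 / N + 1 / N ^ 2 := by field_simp; ring
    rw [this]
    have : 0 < 1 / N ^ 2 := by positivity
    linarith
  have h2 : 0 ≤ (Fintype.card E : ℝ) / k * (1 - 1 / N) := by positivity
  have h3 := mul_le_mul_of_nonneg_left
    (sub_le_sub_left h1 (1 : ℝ)) h2
  linarith

end Pool.Agent.Lib_helper74.Rem
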