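import Pool.Agent.Lib_helper74.Rem.Defs
import Pool.Agent.Lib_helper26.RE.Ring
import Pool.Agent.Lib_helper26.RE.Main

/-!
# MP_df1a54_co, module M4: vertices are split into slots
-/

set_option autoImplicit false

namespace Pool.Agent.Lib_helper74.Rem

open Pool.Agent.RE26 Finset

namespace SplitPf

open Classical in
/-- degree -/
noncomputable def dg {n : ℕ} (G : SimpleGraph (Fin n)) (v : Fin n) : ℕ :=
  (univ.filter (fun u => G.Adj v u)).card

open Classical in
/-- rank of `u` among the neighbours of `v` -/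
noncomputable def rk {n : ℕ} (G : SimpleGraph (Fin n)) (v u : Fin n) : ℕ :=
  (univ.filter (fun w => G.Adj v w ∧ w < u)).card

/-- number of slots -/
noncomputable def cc {n : ℕ} (G : SimpleGraph (Fin n)) (k : ℕ) (v : Fin n) : ℕ :=
  (dg G v + k - 1) / k

/-- edges -/
abbrev ET {n : ℕ} (G : SimpleGraph (Fin n)) : Type :=
  {p : Fin n × Fin n // p.1 < p.2 ∧ G.Adj p.1 p.2}

noncomputable instance instET {n : ℕ} (G : SimpleGraph (Fin n)) : Fintype (ET G) := by
  classical infer_instance

/-- slots -/
abbrev WT {n : ℕ} (G : SimpleGraph (Fin n)) (k : ℕ) : Type := Σ v : Fin n, Fin (cc G k v)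

theorem sig_ext {n : ℕ} {c : Fin n → ℕ} {x y : Σ v, Fin (c v)} (h1 : x.1 = y.1)
    (h2 : (x.2 : ℕ) = y.2) : x = y := by
  obtain ⟨x1, x2⟩ := x
  obtain ⟨y1, y2⟩ := y
  simp only at h1
  subst h1
  simp only at h2
  rw [Fin.ext h2]

section

variable {n : ℕ} {G : SimpleGraph (Fin n)} {k : ℕ}

theorem rk_lt {v u : Fin n} (h : G.Adj v u) : rk G v u < dg G v := by
  classical
  unfold rk dg
  apply Finset.card_lt_card
  rw [Finset.ssubset_iff_of_subset]
  · exact ⟨u, by simp [h], by simp⟩
  · intro w hw
    simp only [mem_filter, mem_univ, true_and] at hw ⊢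
    exact hw.1

theorem rk_strict {v u u' : Fin n} (h : G.Adj v u) (hu : u < u') : rk G v u < rk G v u' := by
  classical
  unfold rk
  apply Finset.card_lt_card
  rw [Finset.ssubset_iff_of_subset]
  · exact ⟨u, by simp [h, hu], by simp⟩
  · intro w hw
    simp only [mem_filter, mem_univ, true_and] at hw ⊢
    exact ⟨hw.1, hw.2.trans hu⟩

theorem rk_inj {v u u' : Fin n} (h : G.Adj v u) (h' : G.Adj v u') (he : rk G v u = rk G v u') :
    u = u' := by
  rcases lt_trichotomy u u' with h1 | h1 | h1
  · exact absurd he (rk_strict h h1).ne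
  · exact h1
  · exact absurd he (rk_strict h' h1).ne'

theorem slot_lt (hk : 1 ≤ k) {v u : Fin n} (h : G.Adj v u) : rk G v u / k < cc G k v := by
  have h1 := rk_lt h
  unfold cc
  have h2 : dg G v + k - 1 = (dg G v - 1) + k := by omega
  rw [h2, Nat.add_div_right _ (by omega)]
  exact Nat.lt_succ_of_le (Nat.div_le_div_right (by omega))

/-- the slot of `v` used by the edge `vu` -/
noncomputable def sl (hk : 1 ≤ k) {v u : Fin n} (h : G.Adj v u) : WT G k :=
  ⟨v, ⟨rk G v u / k, slot_lt hk h⟩⟩

theorem sl_inj_iff (hk : 1 ≤ k) {v u v' u' : Fin n} {h : G.Adj v u} {h' : G.Adj v' u'} :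
    (sl hk h = sl hk h') ↔ v = v' ∧ rk G v u / k = rk G v' u' / k := by
  constructor
  · intro e
    have h1 : v = v' := congrArg Sigma.fst e
    subst h1
    refine ⟨rfl, ?_⟩
    have h2 := congrArg (fun x : WT G k => (x.2 : ℕ)) e
    exact h2
  · rintro ⟨h1, h2⟩
    exact sig_ext h1 h2

noncomputable def fa (hk : 1 ≤ k) (e : ET G) : WT G k := sl hk e.2.2
noncomputable def fb (hk : 1 ≤ k) (e : ET G) : WT G k := sl hk e.2.2.symm

/-- the edge as an element of `Sym2` -/
def sy (e : ET G) : Sym2 (Fin n) := s(e.1.1, e.1.2)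

theorem sy_inj : Function.Injective (sy : ET G → Sym2 (Fin n)) := by
  intro e e' h
  unfold sy at h
  rw [Sym2.eq_iff] at h
  rcases h with ⟨h1, h2⟩ | ⟨h1, h2⟩
  · exact Subtype.ext (Prod.ext h1 h2)
  · have h3 := e.2.1
    rw [h1, h2] at h3
    exact absurd h3 e'.2.1.not_gt

/-- the edge with the ends `x`, `y` -/
theorem exists_edge {x y : Fin n} (h : G.Adj x y) : ∃ e : ET G, sy e = s(x, y) := by
  rcases lt_trichotomy x y with h1 | h1 | h1
  · exact ⟨⟨(x, y), h1, h⟩, rfl⟩
  · exact absurd h1 h.ne
  · exact ⟨⟨(y, x), h1, h.symm⟩, Sym2.eq_swap⟩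

/-- the two slots of an edge, seen from the end `x` -/
theorem slots_of (hk : 1 ≤ k) {x y : Fin n} (h : G.Adj x y) {e : ET G} (he : sy e = s(x, y)) :
    (fa hk e = sl hk h ∧ fb hk e = sl hk h.symm) ∨ (fa hk e = sl hk h.symm ∧ fb hk e = sl hk h) := by
  unfold sy at he
  rw [Sym2.eq_iff] at he
  obtain ⟨⟨u, v⟩, h1, h2⟩ := e
  simp only at he
  rcases he with ⟨rfl, rfl⟩ | ⟨rfl, rfl⟩
  · exact Or.inl ⟨rfl, rfl⟩
  · exact Or.inr ⟨rfl, rfl⟩

theorem dg_ge (hG : KConn G k) (v : Fin n) : k ≤ dg G v := by
  classical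
  by_cases hY : (univ.filter (fun u => ¬ G.Adj v u ∧ u ≠ v)).Nonempty
  · have h1 := sep_of_kconn G k hG {v} _ (Finset.singleton_nonempty v) hY (by
      rw [Finset.disjoint_singleton_left]
      simp) (by
      intro x hx y hy
      rw [Finset.mem_singleton] at hx
      subst hx
      simp only [mem_filter, mem_univ, true_and] at hy
      exact hy.1)
    refine h1.trans (Finset.card_le_card ?_)
    intro u hu
    simp only [mem_compl, mem_union, mem_singleton, mem_filter, mem_univ, true_and] at hu ⊢
    push Not at hu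
    by_contra h
    exact hu.1 (hu.2 h)
  · rw [Finset.not_nonempty_iff_eq_empty, Finset.filter_eq_empty_iff] at hY
    have h1 : univ.erase v ⊆ univ.filter (fun u => G.Adj v u) := by
      intro u hu
      have h2 := Finset.ne_of_mem_erase hu
      simp only [mem_filter, mem_univ, true_and]
      by_contra h
      exact hY (Finset.mem_univ u) ⟨h, h2⟩
    have h2 := Finset.card_le_card h1
    rw [Finset.card_erase_of_mem (Finset.mem_univ v), Finset.card_univ] at h2
    have h3 := hG.1
    unfold dg
    omega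

theorem sum_dg (G : SimpleGraph (Fin n)) : ∑ v, dg G v = 2 * Fintype.card (ET G) := by
  classical
  have h1 : ∑ v, dg G v = ∑ v, (univ.filter (fun u => G.Adj v u ∧ v < u)).card +
      ∑ v, (univ.filter (fun u => G.Adj v u ∧ u < v)).card := by
    rw [← Finset.sum_add_distrib]
    refine Finset.sum_congr rfl fun v _ => ?_
    unfold dg
    rw [← Finset.card_union_of_disjoint]
    · congr 1
      ext u
      simp only [mem_filter, mem_univ, true_and, mem_union]
      constructor
      · intro h
        rcases lt_trichotomy v u with h1 | h1 | h1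
        · exact Or.inl ⟨h, h1⟩
        · exact absurd h1 h.ne
        · exact Or.inr ⟨h, h1⟩
      · rintro (h | h) <;> exact h.1
    · rw [Finset.disjoint_left]
      intro u hu hu'
      simp only [mem_filter, mem_univ, true_and] at hu hu'
      exact absurd hu.2 hu'.2.not_gt
  have h2 : ∑ v, (univ.filter (fun u => G.Adj v u ∧ v < u)).card = Fintype.card (ET G) := by
    rw [Fintype.card_subtype, Finset.card_eq_sum_ones, Finset.sum_filter, ← Finset.univ_product_univ,
      Finset.sum_product]
    refine Finset.sum_congr rfl fun v _ => ?_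
    rw [Finset.card_eq_sum_ones, Finset.sum_filter]
    refine Finset.sum_congr rfl fun u _ => ?_
    simp only [and_comm]
  have h3 : ∑ v, (univ.filter (fun u => G.Adj v u ∧ u < v)).card = Fintype.card (ET G) := by
    rw [Fintype.card_subtype, Finset.card_eq_sum_ones, Finset.sum_filter, ← Finset.univ_product_univ,
      Finset.sum_product_right]
    refine Finset.sum_congr rfl fun v _ => ?_
    rw [Finset.card_eq_sum_ones, Finset.sum_filter]
    refine Finset.sum_congr rfl fun u _ => ?_
    simp only [G.adj_comm v u, and_comm]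
  rw [h1, h2, h3]
  ring

theorem card_slot (hk : 1 ≤ k) (w : WT G k) :
    (open Classical in (univ.filter (fun e : ET G => fa hk e = w ∨ fb hk e = w)).card) ≤ k := by
  classical
  obtain ⟨v, i⟩ := w
  have hoth : ∀ e : ET G, ∃ u, (fa hk e = ⟨v, i⟩ ∨ fb hk e = ⟨v, i⟩) →
      sy e = s(v, u) ∧ G.Adj v u ∧ rk G v u / k = i := by
    intro e
    by_cases h : fa hk e = ⟨v, i⟩
    · have h1 : e.1.1 = v := congrArg Sigma.fst h
      refine ⟨e.1.2, fun _ => ⟨?_, ?_, ?_⟩⟩
      · rw [← h1]; rfl
      · rw [← h1]; exact e.2.2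
      · subst h1
        exact congrArg (fun x : WT G k => (x.2 : ℕ)) h
    · by_cases h' : fb hk e = ⟨v, i⟩
      · have h1 : e.1.2 = v := congrArg Sigma.fst h'
        refine ⟨e.1.1, fun _ => ⟨?_, ?_, ?_⟩⟩
        · rw [← h1]; exact Sym2.eq_swap
        · rw [← h1]; exact e.2.2.symm
        · subst h1
          exact congrArg (fun x : WT G k => (x.2 : ℕ)) h'
      · exact ⟨v, fun h'' => absurd h'' (by simp [h, h'])⟩
  choose o ho using hoth
  calc _ ≤ (Finset.range k).card := by
        apply Finset.card_le_card_of_injOn (fun e => rk G v (o e) % k)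
        · intro e _
          simp only [coe_range, Set.mem_Iio]
          exact Nat.mod_lt _ (by omega)
        · intro e he e' he' hee
          simp only [coe_filter, mem_univ, true_and, Set.mem_ofPred_eq] at he he'
          obtain ⟨h1, h2, h3⟩ := ho e he
          obtain ⟨h1', h2', h3'⟩ := ho e' he'
          simp only at hee
          have h4 : rk G v (o e) = rk G v (o e') := by
            rw [← Nat.div_add_mod (rk G v (o e)) k, ← Nat.div_add_mod (rk G v (o e')) k, h3, h3', hee]
          have h5 := rk_inj h2 h2' h4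
          apply sy_inj
          rw [h1, h1', h5]
    _ = k := Finset.card_range k

/-- the admissible pairs -/
def Ad (hk : 1 ≤ k) (U : Finset (WT G k)) (F : Finset (ET G)) : Prop :=
  KConn (G.deleteEdges (sy '' (F : Set (ET G)))) (k - 1) ∧
  (∀ e ∈ F, fa hk e ∉ U ∧ fb hk e ∉ U) ∧
  ∀ e ∈ F, ∀ e' ∈ F, e ≠ e' → fa hk e ≠ fa hk e' ∧ fa hk e ≠ fb hk e' ∧ fb hk e ≠ fa hk e' ∧
    fb hk e ≠ fb hk e'

theorem arith {D k : ℕ} (hk : 1 ≤ k) (hD : k ≤ D) : k + (D + k - 1) / k ≤ D + 1 := by
  have h1 : D + k - 1 = (D - 1) + k := by omega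
  rw [h1, Nat.add_div_right _ (by omega)]
  have h2 := Nat.div_add_mod (D - 1) k
  set q := (D - 1) / k
  set r := (D - 1) % k
  have hr : r < k := Nat.mod_lt _ (by omega)
  rcases Nat.eq_zero_or_pos q with hq | hq
  · rw [hq] at h2 ⊢
    omega
  · obtain ⟨k', rfl⟩ : ∃ k', k = k' + 1 := ⟨k - 1, by omega⟩
    obtain ⟨q', hq'⟩ : ∃ q', q = q' + 1 := ⟨q - 1, by omega⟩
    rw [hq'] at h2 ⊢
    have h3 : (k' + 1) * (q' + 1) = k' * q' + k' + q' + 1 := by ring
    rw [h3] at h2
    have : 0 ≤ k' * q' := Nat.zero_le _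
    omega

theorem blocked (hM : MaderStmt) (hk : 1 ≤ k) (hG : KConn G k) (U : Finset (WT G k))
    (F : Finset (ET G)) (hA : Ad hk U F) (B : Finset (ET G))
    (hB : open Classical in ∀ e ∈ B, fa hk e ∈ U ∧ fb hk e ∈ U ∧
      ¬ Ad hk ((U.erase (fa hk e)).erase (fb hk e)) (insert e F)) : B.card ≤ n := by
  classical
  obtain ⟨hA1, hA2, hA3⟩ := hA
  have hm : k - 1 + 1 = k := by omega
  have key := hM (Fin n) (G.deleteEdges (sy '' (F : Set (ET G)))) (k - 1) hA1 (B.image sy) ?_
  · rw [Finset.card_image_of_injective _ sy_inj, Fintype.card_fin] at key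
    exact key.le
  intro x y hxy
  rw [Finset.mem_image] at hxy
  obtain ⟨e, he, hexy⟩ := hxy
  obtain ⟨h1, h2, h3⟩ := hB e he
  have hadj : G.Adj x y := by
    have : s(x, y) ∈ G.edgeSet := by
      rw [← hexy]
      exact e.2.2
    exact this
  have heF : e ∉ F := fun h => (hA2 e h).1 h1
  have hsl := slots_of hk hadj hexy
  have hslU : sl hk hadj ∈ U := by
    rcases hsl with ⟨h4, h5⟩ | ⟨h4, h5⟩
    · rw [← h4]; exact h1
    · rw [← h5]; exact h2
  refine ⟨?_, ?_, ?_⟩
  · rw [SimpleGraph.deleteEdges_adj]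
    refine ⟨hadj, ?_⟩
    rintro ⟨f, hf, hfxy⟩
    have : f = e := sy_inj (hfxy.trans hexy.symm)
    subst this
    exact heF hf
  · refine ⟨univ.filter (fun z => (G.deleteEdges (sy '' (F : Set (ET G)))).Adj x z), ?_,
      fun z hz => (Finset.mem_filter.1 hz).2⟩
    rw [hm]
    -- removed neighbours
    have h4 : (univ.filter (fun z => G.Adj x z ∧ s(x, z) ∈ sy '' (F : Set (ET G)))).card + 1 ≤
        cc G k x := by
      have h5 : (univ.filter (fun z => G.Adj x z ∧ s(x, z) ∈ sy '' (F : Set (ET G)))).card ≤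
          ((Finset.range (cc G k x)).erase (rk G x y / k)).card := by
        apply Finset.card_le_card_of_injOn (fun z => rk G x z / k)
        · intro z hz
          simp only [coe_filter, mem_univ, true_and, Set.mem_ofPred_eq] at hz
          obtain ⟨hxz, f, hf, hfz⟩ := hz
          rw [Finset.mem_coe, Finset.mem_erase, Finset.mem_range]
          refine ⟨fun h => ?_, slot_lt hk hxz⟩
          have h6 : sl hk hxz = sl hk hadj := (sl_inj_iff hk).2 ⟨rfl, h⟩
          have h7 : sl hk hxz ∉ U := by
            rcases slots_of hk hxz hfz with ⟨h8, h9⟩ | ⟨h8, h9⟩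
            · rw [← h8]; exact (hA2 f hf).1
            · rw [← h9]; exact (hA2 f hf).2
          exact h7 (h6 ▸ hslU)
        · intro z hz z' hz' hzz
          simp only [coe_filter, mem_univ, true_and, Set.mem_ofPred_eq] at hz hz'
          obtain ⟨hxz, f, hf, hfz⟩ := hz
          obtain ⟨hxz', f', hf', hfz'⟩ := hz'
          by_contra hne
          have hff : f ≠ f' := by
            rintro rfl
            have := hfz.symm.trans hfz'
            rw [Sym2.eq_iff] at this
            rcases this with ⟨_, h⟩ | ⟨h, h'⟩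
            · exact hne h
            · exact hxz'.ne h
          have h6 : sl hk hxz = sl hk hxz' := (sl_inj_iff hk).2 ⟨rfl, hzz⟩
          have h10 := hA3 f hf f' hf' hff
          rcases slots_of hk hxz hfz with ⟨h8, h9⟩ | ⟨h8, h9⟩ <;>
          rcases slots_of hk hxz' hfz' with ⟨h8', h9'⟩ | ⟨h8', h9'⟩
          · exact h10.1 (h8.trans (h6.trans h8'.symm))
          · exact h10.2.1 (h8.trans (h6.trans h9'.symm))
          · exact h10.2.2.1 (h9.trans (h6.trans h8'.symm))
          · exact h10.2.2.2 (h9.trans (h6.trans h9'.symm))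
      have h6 := slot_lt hk hadj
      have h7 : 1 ≤ cc G k x := Nat.lt_of_le_of_lt (Nat.zero_le _) h6
      rw [Finset.card_erase_of_mem (Finset.mem_range.2 h6), Finset.card_range] at h5
      clear h6
      omega
    have h5 : dg G x = (univ.filter (fun z => (G.deleteEdges (sy '' (F : Set (ET G)))).Adj x z)).card +
        (univ.filter (fun z => G.Adj x z ∧ s(x, z) ∈ sy '' (F : Set (ET G)))).card := by
      unfold dg
      rw [← Finset.card_union_of_disjoint]
      · congr 1
        ext z
        simp only [mem_filter, mem_univ, true_and, mem_union, SimpleGraph.deleteEdges_adj]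
        tauto
      · rw [Finset.disjoint_left]
        intro z hz hz'
        simp only [mem_filter, mem_univ, true_and, SimpleGraph.deleteEdges_adj] at hz hz'
        exact hz.2 hz'.2
    have h6 := arith hk (dg_ge hG x)
    unfold cc at h4
    omega
  · intro hK
    refine h3 ⟨?_, ?_, ?_⟩
    · have : (G.deleteEdges (sy '' ((insert e F : Finset (ET G)) : Set (ET G)))) =
          (G.deleteEdges (sy '' (F : Set (ET G)))).deleteEdges {s(x, y)} := by
        rw [SimpleGraph.deleteEdges_deleteEdges, Finset.coe_insert, Set.image_insert_eq, hexy,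
          Set.union_comm]
        rfl
      rw [this]
      exact hK
    · intro f hf
      rcases Finset.mem_insert.1 hf with rfl | hf
      · exact ⟨fun h => Finset.notMem_erase _ _ (Finset.mem_of_mem_erase h),
          fun h => Finset.notMem_erase _ _ h⟩
      · exact ⟨fun h => (hA2 f hf).1 (Finset.mem_of_mem_erase (Finset.mem_of_mem_erase h)),
          fun h => (hA2 f hf).2 (Finset.mem_of_mem_erase (Finset.mem_of_mem_erase h))⟩
    · intro f hf f' hf' hne
      rcases Finset.mem_insert.1 hf with hf2 | hf2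
      · rw [hf2]
        rcases Finset.mem_insert.1 hf' with hf3 | hf3
        · exact absurd (hf2.trans hf3.symm) hne
        · have h4 := hA2 f' hf3
          exact ⟨fun h => h4.1 (h ▸ h1), fun h => h4.2 (h ▸ h1), fun h => h4.1 (h ▸ h2),
            fun h => h4.2 (h ▸ h2)⟩
      · rcases Finset.mem_insert.1 hf' with hf3 | hf3
        · rw [hf3]
          have h4 := hA2 f hf2
          exact ⟨fun h => h4.1 (h ▸ h1), fun h => h4.1 (h ▸ h2), fun h => h4.2 (h ▸ h1),
            fun h => h4.2 (h ▸ h2)⟩
        · exact hA3 f hf2 f' hf3 hne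

end

end SplitPf

open SplitPf in
/-- (M4) -/
theorem split (hM : MaderStmt) (hP : ProcStmt) : SplitStmt := by
  classical
  intro n k G hk hG
  have hdg := dg_ge hG
  have hcc1 : ∀ v, 1 ≤ cc G k v := by
    intro v
    unfold cc
    rw [Nat.one_le_div_iff (by omega)]
    have := hdg v
    omega
  have hN : Fintype.card (WT G k) = ∑ v, cc G k v := by
    rw [Fintype.card_sigma]
    simp
  have hnN : n ≤ Fintype.card (WT G k) := by
    rw [hN]
    calc n = ∑ v : Fin n, 1 := by simp
      _ ≤ _ := Finset.sum_le_sum fun v _ => hcc1 v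
  have hcard := hG.1
  rw [Fintype.card_fin] at hcard
  refine ⟨Fintype.card (ET G), Fintype.card (WT G k), ?_, hnN, ?_, ?_⟩
  · rw [← sum_dg]
    calc k * n = ∑ v : Fin n, k := by simp [mul_comm]
      _ ≤ _ := Finset.sum_le_sum fun v _ => hdg v
  · rw [← sum_dg, hN, Finset.mul_sum]
    have : k * n = ∑ v : Fin n, k := by simp [mul_comm]
    rw [this, ← Finset.sum_add_distrib]
    refine Finset.sum_le_sum fun v _ => ?_
    unfold cc
    have := Nat.mul_div_le (dg G v + k - 1) k
    omega
  · intro T
    have h0 : Ad hk (univ : Finset (WT G k)) (∅ : Finset (ET G)) := by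
      refine ⟨?_, by simp, by simp⟩
      rw [Finset.coe_empty, Set.image_empty, SimpleGraph.deleteEdges_empty]
      exact ⟨by have := hG.1; omega, fun S hS => hG.2 S (by omega)⟩
    obtain ⟨U, F, hA, hb⟩ := hP (ET G) (WT G k) (fa hk) (fb hk) k n (Ad hk) (by
        intro e h
        have := congrArg Sigma.fst h
        exact e.2.1.ne this) (by
        rintro e e' (⟨h1, h2⟩ | ⟨h1, h2⟩)
        · have h3 := congrArg Sigma.fst h1
          have h4 := congrArg Sigma.fst h2
          exact Subtype.ext (Prod.ext h3 h4)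
        · have h3 : e.1.1 = e'.1.2 := congrArg Sigma.fst h1
          have h4 : e.1.2 = e'.1.1 := congrArg Sigma.fst h2
          have h5 := e.2.1
          rw [h3, h4] at h5
          exact absurd h5 e'.2.1.not_gt) hk (fun w => by
        have := card_slot hk w
        convert this) (by omega) hnN h0 (by
        rintro U U' F ⟨h1, h2, h3⟩ hU
        exact ⟨h1, fun e he => ⟨fun h => (h2 e he).1 (hU h), fun h => (h2 e he).2 (hU h)⟩, h3⟩)
        (fun U F e h he => (h.2.1 e he).1) (by
        intro U F hA B hB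
        refine blocked hM hk hG U F hA B ?_
        intro e he
        have := hB e he
        convert this) T
    refine hb.trans ?_
    have h1 : F.card ≤ rem G k := by
      refine le_csSup (bddAbove_rem G k) ⟨F.image sy, ?_, Finset.card_image_of_injective _ sy_inj, ?_⟩
      · intro z hz
        rw [Finset.mem_coe, Finset.mem_image] at hz
        obtain ⟨e, _, rfl⟩ := hz
        exact e.2.2
      · rw [Finset.coe_image]
        exact hA.1
    exact_mod_cast h1

end Pool.Agent.Lib_helper74.Rem
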