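import Pool.Agent.Lib_helper26.RE.Arc
import Pool.Agent.Lib_helper26.RE.Ring
import Pool.Agent.Lib_helper74.Rem.Defs

/-!
# MP_df1a54_co: the upper bound for `f(n, k)` from Harary's graphs (module REM_UPPER)
-/

set_option autoImplicit false

open Finset

namespace Pool.Agent.Lib_helper74.Rem

open Pool.Agent.RE26

/-! ### intervals in `ZMod s` -/

theorem natCast_ne_of_lt {s a b : ℕ} (ha : a < s) (hb : b < s) (h : a ≠ b) :
    (a : ZMod s) ≠ (b : ZMod s) := by
  intro e
  have h1 := (ZMod.natCast_eq_natCast_iff _ _ _).1 e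
  exact h (Nat.ModEq.eq_of_lt_of_lt h1 ha hb)

/-- sets with small `X + [0, t]` are intervals -/
theorem interval {s : ℕ} [NeZero s] (X : Finset (ZMod s)) (hX : X.Nonempty) (t : ℕ) (ht : 1 ≤ t)
    (h : (grow X t).card ≤ X.card + t) (hs : X.card + t < s) :
    ∃ e : ZMod s, ∀ x ∈ X, ∃ m : ℕ, m < X.card ∧ e = x + (m : ZMod s) := by
  classical
  have h1 : (grow X 1).card ≤ X.card + 1 := by
    have hsub : grow (grow X 1) (t - 1) ⊆ grow X t := by
      intro z hz
      obtain ⟨y, hy, j, hj, rfl⟩ := (mem_grow _ _ _).1 hz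
      obtain ⟨x, hx, i, hi, rfl⟩ := (mem_grow _ _ _).1 hy
      refine (mem_grow _ _ _).2 ⟨x, hx, i + j, by omega, ?_⟩
      rw [Nat.cast_add, add_assoc]
    have hne : (grow X 1).Nonempty := by
      obtain ⟨x, hx⟩ := hX
      exact ⟨x, (mem_grow X 1 x).2 ⟨x, hx, 0, by omega, by simp⟩⟩
    have h2 := card_grow (grow X 1) hne (t - 1)
    have h3 := Finset.card_le_card hsub
    omega
  have hXs : X ⊆ grow X 1 := fun x hx => (mem_grow X 1 x).2 ⟨x, hx, 0, by omega, by simp⟩
  have hend : ∀ x ∈ X, x + 1 ∈ grow X 1 := fun x hx =>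
    (mem_grow X 1 _).2 ⟨x, hx, 1, le_rfl, by simp⟩
  have huniq : ∀ x ∈ X, ∀ y ∈ X, x + 1 ∉ X → y + 1 ∉ X → x = y := by
    intro x hx y hy hx1 hy1
    by_contra hxy
    have hsub : insert (x + 1) (insert (y + 1) X) ⊆ grow X 1 :=
      Finset.insert_subset_iff.2 ⟨hend x hx, Finset.insert_subset_iff.2 ⟨hend y hy, hXs⟩⟩
    have h2 := Finset.card_le_card hsub
    rw [Finset.card_insert_of_notMem, Finset.card_insert_of_notMem hy1] at h2
    · omega
    · rw [Finset.mem_insert, not_or]
      exact ⟨fun h => hxy (add_right_cancel h), hx1⟩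
  have hex : ∃ e ∈ X, e + 1 ∉ X := by
    by_contra hcon
    push Not at hcon
    have h2 := closed_univ X hX hcon
    rw [h2, Finset.card_univ, ZMod.card] at hs
    omega
  obtain ⟨e, he, he1⟩ := hex
  refine ⟨e, fun x hx => ?_⟩
  have hfind : ∃ m : ℕ, x + ((m + 1 : ℕ) : ZMod s) ∉ X := by
    by_contra hcon
    push Not at hcon
    apply he1
    rcases Nat.eq_zero_or_pos (e + 1 - x).val with h0 | hpos
    · have h2 : ((e + 1 - x).val : ZMod s) = e + 1 - x := ZMod.natCast_zmod_val _
      rw [h0, Nat.cast_zero] at h2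
      have h3 : e + 1 = x := by
        have := sub_eq_zero.1 h2.symm
        exact this
      rw [h3]
      exact hx
    · have h2 := hcon ((e + 1 - x).val - 1)
      rw [Nat.sub_add_cancel hpos, ZMod.natCast_zmod_val, add_sub_cancel] at h2
      exact h2
  set m := Nat.find hfind with hm
  have hmn : x + ((m + 1 : ℕ) : ZMod s) ∉ X := Nat.find_spec hfind
  have hlt : ∀ j : ℕ, j ≤ m → x + (j : ZMod s) ∈ X := by
    intro j hj
    rcases Nat.eq_zero_or_pos j with h0 | hpos
    · rw [h0, Nat.cast_zero, add_zero]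
      exact hx
    · have h2 := Nat.find_min hfind (m := j - 1) (by omega)
      rw [not_not, Nat.sub_add_cancel hpos] at h2
      exact h2
  have hxm : x + (m : ZMod s) = e := by
    refine huniq _ (hlt m le_rfl) e he ?_ he1
    rw [Nat.cast_succ, ← add_assoc] at hmn
    exact hmn
  refine ⟨m, ?_, hxm.symm⟩
  -- the elements `x, …, x + m` are different
  have hms : m < s := by
    by_contra hcon
    push Not at hcon
    have h2 : X = Finset.univ := by
      rw [Finset.eq_univ_iff_forall]
      intro z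
      have h3 := hlt (z - x).val (by
        have := ZMod.val_lt (z - x)
        omega)
      rwa [ZMod.natCast_zmod_val, add_sub_cancel] at h3
    rw [h2, Finset.card_univ, ZMod.card] at hs
    omega
  have hcard : ((Finset.range (m + 1)).image (fun j : ℕ => x + (j : ZMod s))).card = m + 1 := by
    rw [Finset.card_image_of_injOn, Finset.card_range]
    intro i hi j hj hij
    rw [Finset.coe_range, Set.mem_Iio] at hi hj
    by_contra hne
    exact natCast_ne_of_lt (s := s) (by omega) (by omega) hne (add_left_cancel hij)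
  have hsub : (Finset.range (m + 1)).image (fun j : ℕ => x + (j : ZMod s)) ⊆ X := by
    intro z hz
    obtain ⟨j, hj, rfl⟩ := Finset.mem_image.1 hz
    rw [Finset.mem_range] at hj
    exact hlt j (by omega)
  have := Finset.card_le_card hsub
  omega

/-! ### Harary's graphs -/

/-- Harary's graph: `x` is joined to `x ± 1, …, x ± k/2`, and, if `k` is odd, `i` is joined to
`i + n/2` for `0 ≤ i ≤ (n - 1)/2`. -/
def har (n k : ℕ) : SimpleGraph (ZMod n) where
  Adj x y := x ≠ y ∧ ((∃ j : ℕ, 1 ≤ j ∧ j ≤ k / 2 ∧ (y = x + (j : ZMod n) ∨ x = y + (j : ZMod n))) ∨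
    (Odd k ∧ ∃ i : ℕ, i ≤ (n - 1) / 2 ∧
      ((x = (i : ZMod n) ∧ y = (i : ZMod n) + ((n / 2 : ℕ) : ZMod n)) ∨
        (y = (i : ZMod n) ∧ x = (i : ZMod n) + ((n / 2 : ℕ) : ZMod n)))))
  symm := ⟨by
    rintro x y ⟨h, h1⟩
    refine ⟨h.symm, ?_⟩
    rcases h1 with ⟨j, h2, h3, h4⟩ | ⟨h2, i, h3, h4⟩
    · exact Or.inl ⟨j, h2, h3, h4.symm⟩
    · exact Or.inr ⟨h2, i, h3, h4.symm⟩⟩
  loopless := ⟨fun x h => h.1 rfl⟩

theorem har_partner (n k : ℕ) [NeZero n] (hn : 2 ≤ n) (hk : Odd k) (x : ZMod n) :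
    ∃ y, (har n k).Adj x y ∧
      (y = x + ((n / 2 : ℕ) : ZMod n) ∨ x = y + ((n / 2 : ℕ) : ZMod n)) := by
  have hv := ZMod.val_lt x
  have hx : ((x.val : ℕ) : ZMod n) = x := ZMod.natCast_zmod_val x
  have h0 : ((n / 2 : ℕ) : ZMod n) ≠ 0 := by
    have := natCast_ne_of_lt (s := n) (a := n / 2) (b := 0) (by omega) (by omega) (by omega)
    rwa [Nat.cast_zero] at this
  by_cases h : x.val ≤ (n - 1) / 2
  · refine ⟨x + ((n / 2 : ℕ) : ZMod n), ⟨?_, Or.inr ⟨hk, x.val, h, Or.inl ⟨hx.symm, by rw [hx]⟩⟩⟩,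
      Or.inl rfl⟩
    intro e
    exact h0 (by rw [left_eq_add] at e; exact e)
  · have h1 : x = ((x.val - n / 2 : ℕ) : ZMod n) + ((n / 2 : ℕ) : ZMod n) := by
      rw [← Nat.cast_add, Nat.sub_add_cancel (by omega), hx]
    refine ⟨((x.val - n / 2 : ℕ) : ZMod n), ⟨?_, Or.inr ⟨hk, x.val - n / 2, by omega,
      Or.inr ⟨rfl, h1⟩⟩⟩, Or.inr h1⟩
    intro e
    rw [← e] at h1
    exact h0 (by rw [left_eq_add] at h1; exact h1)

theorem har_half (n k : ℕ) [NeZero n] (hk : 2 ≤ k) (hkn : k < n) (X Y : Finset (ZMod n))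
    (hX : X.Nonempty) (hY : Y.Nonempty) (hXY : Disjoint X Y)
    (hn : ∀ x ∈ X, ∀ y ∈ Y, ¬ (har n k).Adj x y) :
    X.card + Y.card + 2 * (k / 2) ≤ n ∧
      (Odd k → X.card ≤ Y.card → X.card + Y.card + 2 * (k / 2) ≠ n) := by
  classical
  set r := k / 2 with hr
  set Xs : Finset (ZMod n) := X.image (fun x => x - (r : ZMod n)) with hXs
  have hcX : Xs.card = X.card := Finset.card_image_of_injective _ (sub_left_injective)
  have hXsne : Xs.Nonempty := hX.image _
  have hg := card_grow Xs hXsne (2 * r)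
  have hdis : Disjoint Y (grow Xs (2 * r)) := by
    rw [Finset.disjoint_left]
    intro y hy hyz
    obtain ⟨x', hx', j, hj, e⟩ := (mem_grow _ _ _).1 hyz
    obtain ⟨x, hx, rfl⟩ := Finset.mem_image.1 hx'
    have hne : x ≠ y := fun h => Finset.disjoint_left.1 hXY hx (h ▸ hy)
    rcases lt_trichotomy j r with h | h | h
    · apply hn x hx y hy
      refine ⟨hne, Or.inl ⟨r - j, by omega, by omega, Or.inr ?_⟩⟩
      rw [e, Nat.cast_sub h.le]
      ring
    · apply hne
      rw [e, h]
      ring
    · apply hn x hx y hy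
      refine ⟨hne, Or.inl ⟨j - r, by omega, by omega, Or.inl ?_⟩⟩
      rw [e, Nat.cast_sub h.le]
      ring
  have hu := Finset.card_le_card (Finset.subset_univ (Y ∪ grow Xs (2 * r)))
  rw [Finset.card_union_of_disjoint hdis, Finset.card_univ, ZMod.card] at hu
  have hYpos := Finset.card_pos.2 hY
  have hXpos := Finset.card_pos.2 hX
  have h1 : X.card + Y.card + 2 * r ≤ n := by omega
  refine ⟨h1, fun hodd hle heq => ?_⟩
  have hr1 : 1 ≤ 2 * r := by omega
  obtain ⟨e, he⟩ := interval Xs hXsne (2 * r) hr1 (by omega) (by omega)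
  have hcover : ∀ z, z ∉ grow Xs (2 * r) → z ∈ Y := by
    have hsub : Y ⊆ (grow Xs (2 * r))ᶜ := by
      intro y hy
      rw [Finset.mem_compl]
      exact Finset.disjoint_left.1 hdis hy
    have heq' : Y = (grow Xs (2 * r))ᶜ := by
      refine Finset.eq_of_subset_of_card_le hsub ?_
      rw [Finset.card_compl, ZMod.card]
      omega
    intro z hz
    rw [heq', Finset.mem_compl]
    exact hz
  obtain ⟨x, hx⟩ := hX
  obtain ⟨y, hadj, hy⟩ := har_partner n k (by omega) hodd x
  refine hn x hx y (hcover y ?_) hadj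
  intro hyz
  obtain ⟨x', hx', j, hj, ej⟩ := (mem_grow _ _ _).1 hyz
  obtain ⟨m, hm, em⟩ := he (x - (r : ZMod n)) (Finset.mem_image_of_mem _ hx)
  obtain ⟨m', hm', em'⟩ := he x' hx'
  rw [hcX] at hm hm'
  have hx'' : x' = e - (m' : ZMod n) := by rw [em']; ring
  have hxe : x = e - (m : ZMod n) + (r : ZMod n) := by rw [em]; ring
  rcases hy with hy | hy
  · -- `x + h = e - m' + j`
    have h2 : ((n / 2 + m' + r : ℕ) : ZMod n) = ((m + j : ℕ) : ZMod n) := by
      have h3 : e - (m : ZMod n) + (r : ZMod n) + ((n / 2 : ℕ) : ZMod n) =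
          e - (m' : ZMod n) + (j : ZMod n) := by
        rw [← hxe, ← hy, ej, hx'']
      push_cast
      linear_combination h3
    exact natCast_ne_of_lt (by omega) (by omega) (by omega) h2
  · have h2 : ((n / 2 + m + j : ℕ) : ZMod n) = ((m' + r : ℕ) : ZMod n) := by
      have h3 : e - (m : ZMod n) + (r : ZMod n) =
          e - (m' : ZMod n) + (j : ZMod n) + ((n / 2 : ℕ) : ZMod n) := by
        rw [← hxe, hy, ej, hx'']
      push_cast
      linear_combination -h3
    have h4 : ((n / 2 + m + j - (m' + r) : ℕ) : ZMod n) = ((0 : ℕ) : ZMod n) := by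
      rw [Nat.cast_sub (by omega), h2, sub_self, Nat.cast_zero]
    exact natCast_ne_of_lt (by omega) (by omega) (by omega) h4

theorem har_conn (n k : ℕ) [NeZero n] (hk : 2 ≤ k) (hkn : k < n) : KConn (har n k) k := by
  classical
  refine kconn_of_sep _ k (by rw [ZMod.card]; exact hkn) ?_
  intro X Y hX hY hXY hn
  rw [Finset.card_compl, Finset.card_union_of_disjoint hXY, ZMod.card]
  have h1 := har_half n k hk hkn X Y hX hY hXY hn
  have h2 := har_half n k hk hkn Y X hY hX hXY.symm (fun y hy x hx h => hn x hx y hy h.symm)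
  rcases Nat.even_or_odd k with he | ho
  · obtain ⟨j, rfl⟩ := he
    omega
  · have h3 : k = 2 * (k / 2) + 1 := by
      obtain ⟨j, rfl⟩ := ho
      omega
    rcases le_total X.card Y.card with h | h
    · have := h1.2 ho h
      omega
    · have := h2.2 ho h
      omega

theorem har_edges (n k : ℕ) [NeZero n] (hkn : k < n) [DecidableRel (har n k).Adj] :
    (har n k).edgeFinset.card ≤ (k * n + 1) / 2 := by
  classical
  set A : Finset (Sym2 (ZMod n)) := ((Finset.univ : Finset (ZMod n)) ×ˢ Finset.range (k / 2)).image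
    (fun p => s(p.1, p.1 + ((p.2 + 1 : ℕ) : ZMod n))) with hA
  set B : Finset (Sym2 (ZMod n)) := (Finset.range ((n - 1) / 2 + 1)).image
    (fun i : ℕ => s((i : ZMod n), (i : ZMod n) + ((n / 2 : ℕ) : ZMod n))) with hB
  have hAc : A.card ≤ n * (k / 2) := by
    refine Finset.card_image_le.trans ?_
    rw [Finset.card_product, Finset.card_univ, ZMod.card, Finset.card_range]
  have hBc : B.card ≤ (n - 1) / 2 + 1 := by
    refine Finset.card_image_le.trans ?_
    rw [Finset.card_range]
  have hAm : ∀ x y : ZMod n, (∃ j : ℕ, 1 ≤ j ∧ j ≤ k / 2 ∧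
      (y = x + (j : ZMod n) ∨ x = y + (j : ZMod n))) → s(x, y) ∈ A := by
    rintro x y ⟨j, hj, hj', h | h⟩
    · refine Finset.mem_image.2 ⟨(x, j - 1), ?_, ?_⟩
      · rw [Finset.mem_product, Finset.mem_range]
        exact ⟨Finset.mem_univ _, by show j - 1 < k / 2; omega⟩
      · show s(x, x + ((j - 1 + 1 : ℕ) : ZMod n)) = s(x, y)
        rw [Nat.sub_add_cancel hj, ← h]
    · refine Finset.mem_image.2 ⟨(y, j - 1), ?_, ?_⟩
      · rw [Finset.mem_product, Finset.mem_range]
        exact ⟨Finset.mem_univ _, by show j - 1 < k / 2; omega⟩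
      · show s(y, y + ((j - 1 + 1 : ℕ) : ZMod n)) = s(x, y)
        rw [Nat.sub_add_cancel hj, ← h, Sym2.eq_swap]
  rcases Nat.even_or_odd k with he | ho
  · have hsub : (har n k).edgeFinset ⊆ A := by
      intro e he'
      rw [SimpleGraph.mem_edgeFinset] at he'
      induction e using Sym2.ind with
      | _ x y =>
        rw [SimpleGraph.mem_edgeSet] at he'
        rcases he'.2 with h | ⟨h, _⟩
        · exact hAm x y h
        · exact absurd he (Nat.not_even_iff_odd.2 h)
    have h1 := Finset.card_le_card hsub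
    obtain ⟨j, rfl⟩ := he
    have h2 : (j + j) / 2 = j := by omega
    rw [h2] at hAc
    have h3 : (j + j) * n = 2 * (n * j) := by ring
    rw [h3]
    omega
  · have hsub : (har n k).edgeFinset ⊆ A ∪ B := by
      intro e he'
      rw [SimpleGraph.mem_edgeFinset] at he'
      induction e using Sym2.ind with
      | _ x y =>
        rw [SimpleGraph.mem_edgeSet] at he'
        rw [Finset.mem_union]
        rcases he'.2 with h | ⟨h, i, hi, ⟨h1, h2⟩ | ⟨h1, h2⟩⟩
        · exact Or.inl (hAm x y h)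
        · refine Or.inr (Finset.mem_image.2 ⟨i, Finset.mem_range.2 (by omega), ?_⟩)
          rw [h2, h1]
        · refine Or.inr (Finset.mem_image.2 ⟨i, Finset.mem_range.2 (by omega), ?_⟩)
          rw [h2, h1, Sym2.eq_swap]
    have h1 := (Finset.card_le_card hsub).trans (Finset.card_union_le _ _)
    obtain ⟨j, rfl⟩ := ho
    have h2 : (2 * j + 1) / 2 = j := by omega
    rw [h2] at hAc
    have h3 : (2 * j + 1) * n = 2 * (n * j) + n := by ring
    rw [h3]
    omega

/-! ### counting -/

/-- a vertex of an `m`-connected graph has degree at least `m` -/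
theorem le_degree {V : Type} [Fintype V] [DecidableEq V] (G : SimpleGraph V)
    [DecidableRel G.Adj] (m : ℕ) (h : KConn G m) (v : V) : m ≤ G.degree v := by
  classical
  set Y : Finset V := (insert v (G.neighborFinset v))ᶜ with hYdef
  have hv : v ∉ G.neighborFinset v := by simp
  have hcard : (insert v (G.neighborFinset v)).card = G.degree v + 1 := by
    rw [Finset.card_insert_of_notMem hv, SimpleGraph.card_neighborFinset_eq_degree]
  by_cases hY : Y.Nonempty
  · have h1 := sep_of_kconn G m h {v} Y (Finset.singleton_nonempty v) hY (by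
      rw [Finset.disjoint_singleton_left, hYdef, Finset.mem_compl, not_not]
      exact Finset.mem_insert_self _ _) (by
      intro x hx y hy hadj
      rw [Finset.mem_singleton] at hx
      subst hx
      rw [hYdef, Finset.mem_compl, Finset.mem_insert, not_or] at hy
      exact hy.2 (by simpa using hadj))
    have h2 : ({v} ∪ Y)ᶜ ⊆ G.neighborFinset v := by
      intro z hz
      rw [Finset.mem_compl, Finset.mem_union, not_or, Finset.mem_singleton, hYdef,
        Finset.mem_compl, not_not, Finset.mem_insert] at hz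
      exact hz.2.resolve_left hz.1
    have h3 := Finset.card_le_card h2
    rw [SimpleGraph.card_neighborFinset_eq_degree] at h3
    omega
  · rw [Finset.not_nonempty_iff_eq_empty, hYdef, Finset.compl_eq_empty_iff] at hY
    have h1 := h.1
    rw [← Finset.card_univ, ← hY, hcard] at h1
    omega

/-- the number of edges of an `m`-connected graph -/
theorem le_edges {V : Type} [Fintype V] [DecidableEq V] (G : SimpleGraph V)
    [DecidableRel G.Adj] (m : ℕ) (h : KConn G m) :
    (m * Fintype.card V + 1) / 2 ≤ G.edgeFinset.card := by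
  have h1 := G.sum_degrees_eq_twice_card_edges
  have h2 : ∑ _v : V, m ≤ ∑ v, G.degree v := Finset.sum_le_sum fun v _ => le_degree G m h v
  rw [Finset.sum_const, Finset.card_univ, smul_eq_mul, mul_comm] at h2
  omega

theorem upper : UpperStmt := by
  classical
  intro n k hk hkn
  have : NeZero n := ⟨by omega⟩
  let e : ZMod n ≃ Fin n := Fintype.equivFinOfCardEq (ZMod.card n)
  let G : SimpleGraph (Fin n) := (har n k).comap e.symm
  have hiso : ∀ a b, (har n k).Adj a b ↔ G.Adj (e a) (e b) := by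
    intro a b
    show _ ↔ (har n k).Adj (e.symm (e a)) (e.symm (e b))
    rw [Equiv.symm_apply_apply, Equiv.symm_apply_apply]
  have hG : KConn G k := kconn_equiv e (har n k) G hiso k (har_conn n k hk hkn)
  have hedges : G.edgeFinset.card ≤ (k * n + 1) / 2 := by
    have φ : (har n k) ≃g G := ⟨e, fun {a b} => (hiso a b).symm⟩
    rw [← φ.card_edgeFinset_eq]
    exact har_edges n k hkn
  have hrem : rem G k ≤ (k * n + 1) / 2 - ((k - 1) * n + 1) / 2 := by
    refine csSup_le' ?_
    rintro m ⟨F, hF, rfl, hconn⟩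
    have h1 := le_edges _ _ hconn
    rw [Fintype.card_fin] at h1
    have h2 : (G.deleteEdges (F : Set (Sym2 (Fin n)))).edgeFinset = G.edgeFinset \ F := by
      ext x
      rw [SimpleGraph.mem_edgeFinset, SimpleGraph.edgeSet_deleteEdges, Finset.mem_sdiff,
        SimpleGraph.mem_edgeFinset, Set.mem_sdiff, Finset.mem_coe]
    have h3 : F ⊆ G.edgeFinset := by
      intro x hx
      rw [SimpleGraph.mem_edgeFinset]
      exact hF (Finset.mem_coe.2 hx)
    have h4 := Finset.card_sdiff_add_card_eq_card h3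
    rw [← h2] at h4
    omega
  have hmem : rem G k ∈ {m | ∃ G : SimpleGraph (Fin n), KConn G k ∧ rem G k = m} := ⟨G, hG, rfl⟩
  exact (Nat.sInf_le hmem).trans hrem

end Pool.Agent.Lib_helper74.Rem
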