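import Pool.Agent.Lib_helper74.Rem.Mader
import Pool.Agent.Lib_helper74.Rem.Proc
import Pool.Agent.Lib_helper74.Rem.Split
import Pool.Agent.Lib_helper74.Rem.Upper

/-!
# MP_df1a54_co: the numerical form of the lower bound
-/

set_option autoImplicit false

namespace Pool.Agent.Lib_helper74.Rem

open Pool.Agent.RE26 Finset

theorem num_core {ρ N n k r : ℝ} (hk : 2 ≤ k) (hkn : k + 1 ≤ n) (hρ : n ≤ 2 * ρ) (hnN : n ≤ N)
    (hN : N ≤ 2 * ρ + n)
    (h : ∀ T : ℕ, ρ * (1 - 1 / N) * (1 - (1 - 1 / N) ^ T) - 2 * T / Real.sqrt k -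
      5 * (N / k) / (1 - 1 / N) ^ T ≤ r) :
    ρ * (1 - 4 * (Real.log k + 16) / Real.sqrt k) ≤ r := by
  have hk0 : 0 < k := by linarith
  have hn0 : 0 < n := by linarith
  have hN3 : 3 ≤ N := by linarith
  have hN0 : 0 < N := by linarith
  have hρ0 : 0 < ρ := by linarith
  have hN1 : 0 < N - 1 := by linarith
  have hsk : 0 < Real.sqrt k := Real.sqrt_pos.2 hk0
  have hlog : 0 ≤ Real.log k := Real.log_nonneg (by linarith)
  have hlogk : Real.log k ≤ k - 1 := Real.log_le_sub_one_of_pos hk0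
  set L := Real.log k / 2 with hL
  have hexpL : Real.exp L = Real.sqrt k := by
    rw [hL, ← Real.log_sqrt hk0.le, Real.exp_log hsk]
  set q := 1 - 1 / N with hq
  have hq0 : 0 < q := by
    have : 1 / N < 1 := by rw [div_lt_one hN0]; linarith
    rw [hq]; linarith
  set T := ⌈N * L⌉₊ with hT
  have hT1 : N * L ≤ T := Nat.le_ceil _
  have hT2 : (T : ℝ) ≤ N * L + 1 := (Nat.ceil_lt_add_one (by positivity)).le
  -- q ^ T is small
  have h1 : q ^ T ≤ 1 / Real.sqrt k := by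
    have h2 : q ≤ Real.exp (-(1 / N)) := by
      have := Real.add_one_le_exp (-(1 / N))
      rw [hq]; linarith
    calc q ^ T ≤ (Real.exp (-(1 / N))) ^ T := pow_le_pow_left₀ hq0.le h2 T
      _ = Real.exp (-(T / N)) := by
          rw [← Real.exp_nat_mul]; congr 1; ring
      _ ≤ Real.exp (-L) := by
          apply Real.exp_le_exp.2
          have : L ≤ T / N := by rw [le_div_iff₀ hN0]; linarith
          linarith
      _ = 1 / Real.sqrt k := by rw [Real.exp_neg, hexpL, one_div]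
  -- q ^ T is not too small
  have h2 : 1 / q ^ T ≤ 3 * Real.sqrt k := by
    have h3 : 1 / q ≤ Real.exp (1 / (N - 1)) := by
      have h4 : 1 / q = 1 / (N - 1) + 1 := by
        rw [hq]; field_simp; ring
      rw [h4]
      exact Real.add_one_le_exp _
    have h5 : (T : ℝ) / (N - 1) ≤ L + 1 := by
      rw [div_le_iff₀ hN1]
      have h6 : L + 1 ≤ N - 1 - 0 := by
        rw [hL]
        have : N ≥ k + 1 := by linarith
        linarith
      nlinarith
    calc 1 / q ^ T = (1 / q) ^ T := by rw [one_div_pow]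
      _ ≤ (Real.exp (1 / (N - 1))) ^ T := pow_le_pow_left₀ (by positivity) h3 T
      _ = Real.exp (T / (N - 1)) := by rw [← Real.exp_nat_mul]; congr 1; ring
      _ ≤ Real.exp (L + 1) := Real.exp_le_exp.2 h5
      _ = Real.sqrt k * Real.exp 1 := by rw [Real.exp_add, hexpL]
      _ ≤ Real.sqrt k * 3 := by
          have := Real.exp_one_lt_d9
          gcongr
          linarith
      _ = 3 * Real.sqrt k := by ring
  refine le_trans ?_ (h T)
  have hsq : Real.sqrt k * Real.sqrt k = k := Real.mul_self_sqrt hk0.le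
  have hsk1 : Real.sqrt k ≤ k := by
    nlinarith [Real.one_le_sqrt.2 (by linarith : (1 : ℝ) ≤ k)]
  have h3 : 1 / N ≤ 1 / Real.sqrt k := by
    gcongr
    linarith
  have h4 : 1 - 2 / Real.sqrt k ≤ (1 - 1 / N) * (1 - q ^ T) := by
    have h5 : 0 ≤ 1 / N * q ^ T := by positivity
    have h6 : (1 - 1 / N) * (1 - q ^ T) = 1 - 1 / N - q ^ T + 1 / N * q ^ T := by ring
    have h7 : 2 / Real.sqrt k = 1 / Real.sqrt k + 1 / Real.sqrt k := by ring
    rw [h6, h7]
    linarith
  have h5 : ρ * (1 - 2 / Real.sqrt k) ≤ ρ * (1 - 1 / N) * (1 - q ^ T) := by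
    have := mul_le_mul_of_nonneg_left h4 hρ0.le
    calc ρ * (1 - 2 / Real.sqrt k) ≤ ρ * ((1 - 1 / N) * (1 - q ^ T)) := this
      _ = ρ * (1 - 1 / N) * (1 - q ^ T) := by ring
  have h6 : 2 * (T : ℝ) / Real.sqrt k ≤ (4 * Real.log k * ρ + 2 * ρ) / Real.sqrt k := by
    gcongr
    have h7 : N * L ≤ 4 * ρ * (Real.log k / 2) := by
      rw [hL]; gcongr; linarith
    nlinarith
  have h7 : 5 * (N / k) / q ^ T ≤ 60 * ρ / Real.sqrt k := by
    have h8 : 5 * (N / k) / q ^ T = 5 * (N / k) * (1 / q ^ T) := by ring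
    rw [h8]
    calc 5 * (N / k) * (1 / q ^ T) ≤ 5 * (N / k) * (3 * Real.sqrt k) := by gcongr
      _ = 15 * N * (Real.sqrt k / k) := by ring
      _ = 15 * N * (1 / Real.sqrt k) := by
          congr 1
          rw [div_eq_div_iff hk0.ne' hsk.ne', one_mul, hsq]
      _ ≤ 15 * (4 * ρ) * (1 / Real.sqrt k) := by gcongr; linarith
      _ = 60 * ρ / Real.sqrt k := by ring
  have h8 : ρ * (1 - 4 * (Real.log k + 16) / Real.sqrt k) = ρ * (1 - 2 / Real.sqrt k) -
      (4 * Real.log k * ρ + 2 * ρ) / Real.sqrt k - 60 * ρ / Real.sqrt k := by ring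
  linarith

/-- the lower bound for every `k`-connected graph -/
theorem rem_lower (n k : ℕ) (hk : 2 ≤ k) (hkn : k < n) (G : SimpleGraph (Fin n))
    (hG : KConn G k) :
    (n : ℝ) / 2 * (1 - 4 * (Real.log k + 16) / Real.sqrt k) ≤ (rem G k : ℝ) := by
  obtain ⟨e, N, h1, h2, h3, h4⟩ := split mader proc n k G (by omega) hG
  have hk0 : (0 : ℝ) < k := by exact_mod_cast (by omega : 0 < k)
  have h1' : (n : ℝ) ≤ 2 * ((e : ℝ) / k) := by
    have : (k : ℝ) * n ≤ 2 * e := by exact_mod_cast h1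
    rw [← mul_div_assoc, le_div_iff₀ hk0]
    linarith
  have h3' : (N : ℝ) ≤ 2 * ((e : ℝ) / k) + n := by
    have : (k : ℝ) * N ≤ 2 * e + k * n := by exact_mod_cast h3
    have h5 : 2 * ((e : ℝ) / k) + n = (2 * e + k * n) / k := by field_simp
    rw [h5, le_div_iff₀ hk0]
    linarith
  have h5 := num_core (ρ := (e : ℝ) / k) (N := N) (n := n) (k := k) (r := (rem G k : ℝ))
    (by exact_mod_cast hk) (by exact_mod_cast hkn) h1' (by exact_mod_cast h2) h3' h4
  rcases le_total 0 (1 - 4 * (Real.log k + 16) / Real.sqrt k) with h6 | h6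
  · exact le_trans (mul_le_mul_of_nonneg_right (by linarith) h6) h5
  · have h7 : (n : ℝ) / 2 * (1 - 4 * (Real.log k + 16) / Real.sqrt k) ≤ 0 :=
      mul_nonpos_of_nonneg_of_nonpos (by positivity) h6
    exact h7.trans (Nat.cast_nonneg _)

theorem exists_kconn (n k : ℕ) (hkn : k < n) : ∃ G : SimpleGraph (Fin n), KConn G k := by
  classical
  refine ⟨⊤, kconn_of_sep ⊤ k (by rw [Fintype.card_fin]; exact hkn) ?_⟩
  intro X Y hX hY hXY hn
  obtain ⟨x, hx⟩ := hX
  obtain ⟨y, hy⟩ := hY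
  exfalso
  apply hn x hx y hy
  rw [SimpleGraph.top_adj]
  rintro rfl
  exact Finset.disjoint_left.1 hXY hx hy

theorem fnk_lower (n k : ℕ) (hk : 2 ≤ k) (hkn : k < n) :
    (n : ℝ) / 2 * (1 - 4 * (Real.log k + 16) / Real.sqrt k) ≤ (fnk n k : ℝ) := by
  obtain ⟨G0, hG0⟩ := exists_kconn n k hkn
  have hne : {m | ∃ G : SimpleGraph (Fin n), KConn G k ∧ rem G k = m}.Nonempty :=
    ⟨rem G0 k, G0, hG0, rfl⟩
  obtain ⟨G, hG, hGm⟩ := Nat.sInf_mem hne
  have : fnk n k = rem G k := hGm.symm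
  rw [this]
  exact rem_lower n k hk hkn G hG

end Pool.Agent.Lib_helper74.Rem
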