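import Pool.Agent.Lib_helper74.Rem.Defs

/-!
# One step of the random greedy process (module M2)
-/

set_option autoImplicit false

namespace Pool.Agent.Lib_helper74.Rem

open Finset

section Step

variable {E W : Type} [Fintype E] [Fintype W] [DecidableEq E] [DecidableEq W]

/-- number of edges between `v` and `x` -/
def nn (a b : E → W) (v x : W) : ℝ :=
  ∑ e, ((if a e = v ∧ b e = x then (1 : ℝ) else 0) + (if b e = v ∧ a e = x then 1 else 0))

/-- number of edges at `v` with the other slot in `U` -/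
def AA (a b : E → W) (v : W) (U : Finset W) : ℝ := ∑ x ∈ U, nn a b v x

/-- number of edges inside `U` -/
def XX (a b : E → W) (U : Finset W) : ℝ := ((univ.filter (fun e => a e ∈ U ∧ b e ∈ U)).card : ℝ)

/-- second moment -/
def ZZ (a b : E → W) (s : ℝ) (U : Finset W) : ℝ :=
  ∑ v, (AA a b v U - s * AA a b v univ) ^ 2

variable (a b : E → W)

theorem nn_symm (v x : W) : nn a b v x = nn a b x v := by
  unfold nn
  refine sum_congr rfl fun e _ => ?_
  rw [add_comm]
  congr 1
  · by_cases h : b e = v ∧ a e = x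
    · rw [if_pos h, if_pos h.symm]
    · rw [if_neg h, if_neg (fun h' => h h'.symm)]
  · by_cases h : a e = v ∧ b e = x
    · rw [if_pos h, if_pos h.symm]
    · rw [if_neg h, if_neg (fun h' => h h'.symm)]

theorem nn_nonneg (v x : W) : 0 ≤ nn a b v x := by
  unfold nn
  refine sum_nonneg fun e _ => ?_
  split_ifs <;> norm_num

theorem nn_le_one (hab : ∀ e, a e ≠ b e)
    (hs : ∀ e e', ((a e = a e' ∧ b e = b e') ∨ (a e = b e' ∧ b e = a e')) → e = e') (v x : W) :
    nn a b v x ≤ 1 := by
  unfold nn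
  have h1 : ∀ e ∈ (univ : Finset E),
      ((if a e = v ∧ b e = x then (1 : ℝ) else 0) + (if b e = v ∧ a e = x then 1 else 0)) =
      if ((a e = v ∧ b e = x) ∨ (b e = v ∧ a e = x)) then (1 : ℝ) else 0 := by
    intro e _
    by_cases h2 : a e = v ∧ b e = x
    · rw [if_pos h2, if_pos (Or.inl h2), if_neg]
      · norm_num
      · rintro ⟨h3, -⟩
        exact hab e (h2.1.trans h3.symm)
    · by_cases h3 : b e = v ∧ a e = x
      · rw [if_neg h2, if_pos h3, if_pos (Or.inr h3)]; norm_num
      · rw [if_neg h2, if_neg h3, if_neg (by rintro (h | h); exacts [h2 h, h3 h])]; norm_num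
  rw [sum_congr rfl h1, ← sum_filter, sum_const, nsmul_eq_mul, mul_one]
  have h2 : (univ.filter (fun e => (a e = v ∧ b e = x) ∨ (b e = v ∧ a e = x))).card ≤ 1 := by
    rw [card_le_one]
    intro e he e' he'
    rw [mem_filter] at he he'
    apply hs
    rcases he.2 with ⟨h3, h4⟩ | ⟨h3, h4⟩ <;> rcases he'.2 with ⟨h5, h6⟩ | ⟨h5, h6⟩
    · exact Or.inl ⟨h3.trans h5.symm, h4.trans h6.symm⟩
    · exact Or.inr ⟨h3.trans h5.symm, h4.trans h6.symm⟩
    · exact Or.inr ⟨h4.trans h6.symm, h3.trans h5.symm⟩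
    · exact Or.inl ⟨h4.trans h6.symm, h3.trans h5.symm⟩
  exact_mod_cast h2

theorem AA_eq (v : W) (U : Finset W) : AA a b v U =
    ∑ e, ((if a e = v ∧ b e ∈ U then (1 : ℝ) else 0) + (if b e = v ∧ a e ∈ U then 1 else 0)) := by
  unfold AA nn
  rw [sum_comm]
  refine sum_congr rfl fun e _ => ?_
  rw [sum_add_distrib]
  congr 1
  · by_cases h : a e = v
    · simp [h]
    · simp [h]
  · by_cases h : b e = v
    · simp [h]
    · simp [h]

theorem AA_mono (v : W) {U U' : Finset W} (h : U' ⊆ U) : AA a b v U' ≤ AA a b v U :=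
  sum_le_sum_of_subset_of_nonneg h fun x _ _ => nn_nonneg a b v x

theorem AA_nonneg (v : W) (U : Finset W) : 0 ≤ AA a b v U :=
  sum_nonneg fun x _ => nn_nonneg a b v x

theorem AA_univ_le (hab : ∀ e, a e ≠ b e) (k : ℕ) (v : W)
    (hk : (univ.filter (fun e => a e = v ∨ b e = v)).card ≤ k) : AA a b v univ ≤ k := by
  rw [AA_eq]
  have h1 : ∀ e ∈ (univ : Finset E),
      ((if a e = v ∧ b e ∈ (univ : Finset W) then (1 : ℝ) else 0) +
        (if b e = v ∧ a e ∈ (univ : Finset W) then 1 else 0)) =
      if (a e = v ∨ b e = v) then (1 : ℝ) else 0 := by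
    intro e _
    by_cases h2 : a e = v
    · have h3 : b e ≠ v := fun h => hab e (h2.trans h.symm)
      simp [h2, h3]
    · by_cases h3 : b e = v
      · simp [h2, h3]
      · simp [h2, h3]
  rw [sum_congr rfl h1, ← sum_filter, sum_const, nsmul_eq_mul, mul_one]
  exact_mod_cast hk

theorem sum_EU (g : W → ℝ) (U : Finset W) :
    ∑ e ∈ univ.filter (fun e => a e ∈ U ∧ b e ∈ U), (g (a e) + g (b e)) =
      ∑ x ∈ U, g x * AA a b x U := by
  have h1 : ∀ x ∈ U, g x * AA a b x U = ∑ e, ((if a e = x ∧ b e ∈ U then g x else 0) +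
      (if b e = x ∧ a e ∈ U then g x else 0)) := by
    intro x _
    rw [AA_eq, mul_sum]
    refine sum_congr rfl fun e _ => ?_
    split_ifs <;> ring
  rw [sum_congr rfl h1, sum_comm, sum_filter]
  refine sum_congr rfl fun e _ => ?_
  rw [sum_add_distrib]
  by_cases h2 : a e ∈ U
  · by_cases h3 : b e ∈ U
    · rw [if_pos ⟨h2, h3⟩]
      congr 1
      · rw [sum_eq_single (a e)]
        · rw [if_pos ⟨rfl, h3⟩]
        · intro x _ hx
          rw [if_neg (fun h => hx h.1.symm)]
        · intro h; exact absurd h2 h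
      · rw [sum_eq_single (b e)]
        · rw [if_pos ⟨rfl, h2⟩]
        · intro x _ hx
          rw [if_neg (fun h => hx h.1.symm)]
        · intro h; exact absurd h3 h
    · rw [if_neg (fun h => h3 h.2)]
      symm
      rw [sum_eq_zero, sum_eq_zero, add_zero]
      · intro x hx
        rw [if_neg]
        rintro ⟨h4, -⟩
        exact h3 (h4 ▸ hx)
      · intro x hx
        rw [if_neg]
        rintro ⟨-, h4⟩
        exact h3 h4
  · rw [if_neg (fun h => h2 h.1)]
    symm
    rw [sum_eq_zero, sum_eq_zero, add_zero]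
    · intro x hx
      rw [if_neg]
      rintro ⟨-, h4⟩
      exact h2 h4
    · intro x hx
      rw [if_neg]
      rintro ⟨h4, -⟩
      exact h2 (h4 ▸ hx)

theorem XX_double (U : Finset W) : 2 * XX a b U = ∑ x ∈ U, AA a b x U := by
  have := sum_EU a b (fun _ => (1 : ℝ)) U
  simp only [one_mul] at this
  rw [← this, sum_const, nsmul_eq_mul, XX]
  ring

theorem XX_erase (U : Finset W) (x : W) : XX a b U - AA a b x U ≤ XX a b (U.erase x) := by
  have h1 : XX a b U - XX a b (U.erase x) ≤ AA a b x U := by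
    unfold XX
    rw [AA_eq, card_eq_sum_ones, card_eq_sum_ones]
    push_cast
    rw [sum_filter, sum_filter, ← sum_sub_distrib]
    refine sum_le_sum fun e _ => ?_
    simp only [mem_erase]
    by_cases h2 : a e ∈ U
    · by_cases h3 : b e ∈ U
      · by_cases h4 : a e = x
        · by_cases h5 : b e = x
          · simp [h2, h3, h4, h5]
            split_ifs <;> norm_num
          · simp [h2, h3, h4, h5]
            split_ifs <;> norm_num
        · by_cases h5 : b e = x
          · simp [h2, h3, h4, h5]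
            rw [if_pos (h5 ▸ h3)]
            try norm_num
          · simp [h2, h3, h4, h5]
      · simp [h2, h3]
        split_ifs <;> norm_num
    · simp [h2]
      split_ifs <;> norm_num
  linarith

/-! ### the weights -/

variable (U : Finset W) (w : E → ℝ)

/-- total weight of the edges at `x` -/
def load (x : W) : ℝ := ∑ e, ((if a e = x then w e else 0) + (if b e = x then w e else 0))

theorem sum_load (hw : ∀ e, ¬ (a e ∈ U ∧ b e ∈ U) → w e = 0) (g : W → ℝ) :
    ∑ x ∈ U, g x * load a b w x = ∑ e, w e * (g (a e) + g (b e)) := by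
  unfold load
  simp_rw [mul_sum]
  rw [sum_comm]
  refine sum_congr rfl fun e _ => ?_
  by_cases h : a e ∈ U ∧ b e ∈ U
  · have h1 : ∀ x ∈ U, g x * ((if a e = x then w e else 0) + (if b e = x then w e else 0)) =
        (if a e = x then g x * w e else 0) + (if b e = x then g x * w e else 0) := by
      intro x _
      split_ifs <;> ring
    rw [sum_congr rfl h1, sum_add_distrib, sum_ite_eq, sum_ite_eq, if_pos h.1, if_pos h.2]
    ring
  · rw [hw e h]
    simp

/-- the outcomes of one step: nothing, an edge, a slot -/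
abbrev Outc (E W : Type) : Type := Option (E ⊕ W)

/-- probabilities of the outcomes -/
noncomputable def pr (N : ℝ) : Outc E W → ℝ
  | none => 1 - ∑ e, w e - ∑ x ∈ U, (1 / N - load a b w x)
  | some (Sum.inl e) => w e
  | some (Sum.inr x) => if x ∈ U then 1 / N - load a b w x else 0

/-- the new set of free slots -/
def nU : Outc E W → Finset W
  | none => U
  | some (Sum.inl e) => (U.erase (a e)).erase (b e)
  | some (Sum.inr x) => U.erase x

theorem expect (N : ℝ) (φ : Finset W → ℝ) :
    ∑ o, pr a b U w N o * φ (nU a b U o) = φ U +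
      ∑ e, w e * (φ ((U.erase (a e)).erase (b e)) - φ U) +
      ∑ x ∈ U, (1 / N - load a b w x) * (φ (U.erase x) - φ U) := by
  rw [Fintype.sum_option, Fintype.sum_sum_type]
  simp only [pr, nU]
  have h1 : ∑ x, (if x ∈ U then 1 / N - load a b w x else 0) * φ (U.erase x) =
      ∑ x ∈ U, (1 / N - load a b w x) * φ (U.erase x) := by
    rw [← sum_filter_add_sum_filter_not univ (fun x => x ∈ U)]
    have h2 : ∑ x ∈ univ.filter (fun x => ¬ x ∈ U),
        (if x ∈ U then 1 / N - load a b w x else 0) * φ (U.erase x) = 0 := by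
      refine sum_eq_zero fun x hx => ?_
      rw [mem_filter] at hx
      rw [if_neg hx.2, zero_mul]
    rw [h2, add_zero]
    have h3 : univ.filter (fun x => x ∈ U) = U := by ext; simp
    rw [h3]
    refine sum_congr rfl fun x hx => ?_
    rw [if_pos hx]
  rw [h1]
  have h4 : ∑ x ∈ U, (1 / N - load a b w x) * (φ (U.erase x) - φ U) =
      ∑ x ∈ U, (1 / N - load a b w x) * φ (U.erase x) -
        (∑ x ∈ U, (1 / N - load a b w x)) * φ U := by
    rw [sum_mul, ← sum_sub_distrib]
    exact sum_congr rfl fun x _ => by ring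
  have h5 : ∑ e, w e * (φ ((U.erase (a e)).erase (b e)) - φ U) =
      ∑ e, w e * φ ((U.erase (a e)).erase (b e)) - (∑ e, w e) * φ U := by
    rw [sum_mul, ← sum_sub_distrib]
    exact sum_congr rfl fun x _ => by ring
  rw [h4, h5]
  ring

theorem sum_pr (N : ℝ) : ∑ o, pr a b U w N o = 1 := by
  have := expect a b U w N (fun _ => (1 : ℝ))
  simpa using this

theorem pr_nonneg {N : ℝ} (hN : 0 < N) (hUN : (U.card : ℝ) ≤ N) (hw0 : ∀ e, 0 ≤ w e)
    (hw : ∀ e, ¬ (a e ∈ U ∧ b e ∈ U) → w e = 0) (hl : ∀ x ∈ U, load a b w x ≤ 1 / N)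
    (o : Outc E W) : 0 ≤ pr a b U w N o := by
  match o with
  | none =>
    simp only [pr]
    rw [sum_sub_distrib, sum_const, nsmul_eq_mul]
    have h1 := sum_load a b U w hw (fun _ => (1 : ℝ))
    simp only [one_mul] at h1
    rw [h1]
    have h2 : ∑ e, w e * (1 + 1) = 2 * ∑ e, w e := by
      rw [mul_sum]; exact sum_congr rfl fun e _ => by ring
    rw [h2]
    have h3 : (U.card : ℝ) * (1 / N) ≤ 1 := by
      rw [mul_one_div, div_le_one hN]; exact hUN
    have h4 : 0 ≤ ∑ e, w e := sum_nonneg fun e _ => hw0 e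
    linarith
  | some (Sum.inl e) => exact hw0 e
  | some (Sum.inr x) =>
    simp only [pr]
    split_ifs with h
    · have := hl x h; linarith
    · exact le_rfl

/-- expectation of a linear function -/
theorem expect_lin (hab : ∀ e, a e ≠ b e) {N : ℝ}
    (hw : ∀ e, ¬ (a e ∈ U ∧ b e ∈ U) → w e = 0) (g : W → ℝ) :
    ∑ o, pr a b U w N o * (∑ x ∈ nU a b U o, g x) = (1 - 1 / N) * ∑ x ∈ U, g x := by
  rw [expect a b U w N (fun V => ∑ x ∈ V, g x)]
  have h1 : ∀ e ∈ (univ : Finset E),
      w e * (∑ x ∈ (U.erase (a e)).erase (b e), g x - ∑ x ∈ U, g x) =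
      - (w e * (g (a e) + g (b e))) := by
    intro e _
    by_cases h : a e ∈ U ∧ b e ∈ U
    · have h2 := sum_erase_add (s := U) (f := g) h.1
      have h3 := sum_erase_add (s := U.erase (a e)) (f := g)
        (mem_erase.2 ⟨(hab e).symm, h.2⟩)
      have : ∑ x ∈ (U.erase (a e)).erase (b e), g x - ∑ x ∈ U, g x = -(g (a e) + g (b e)) := by
        linarith
      rw [this]; ring
    · rw [hw e h]; ring
  have h2 : ∀ x ∈ U, (1 / N - load a b w x) * (∑ y ∈ U.erase x, g y - ∑ y ∈ U, g y) =
      - (1 / N * g x) + g x * load a b w x := by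
    intro x hx
    have h3 := sum_erase_add (s := U) (f := g) hx
    have : ∑ y ∈ U.erase x, g y - ∑ y ∈ U, g y = - g x := by linarith
    rw [this]; ring
  rw [sum_congr rfl h1, sum_congr rfl h2, sum_add_distrib, sum_load a b U w hw g,
    sum_neg_distrib, sum_neg_distrib, ← mul_sum]
  ring

theorem expect_card (hab : ∀ e, a e ≠ b e) {N : ℝ}
    (hw : ∀ e, ¬ (a e ∈ U ∧ b e ∈ U) → w e = 0) :
    ∑ o, pr a b U w N o * ((nU a b U o).card : ℝ) = (1 - 1 / N) * U.card := by
  have := expect_lin a b U w hab (N := N) hw (fun _ => (1 : ℝ))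
  simpa using this

theorem expect_X {N : ℝ} (hw0 : ∀ e, 0 ≤ w e)
    (hw : ∀ e, ¬ (a e ∈ U ∧ b e ∈ U) → w e = 0) (hl : ∀ x ∈ U, load a b w x ≤ 1 / N) :
    (1 - 2 / N) * XX a b U ≤ ∑ o, pr a b U w N o * XX a b (nU a b U o) := by
  rw [expect a b U w N (XX a b)]
  have h1 : ∀ e ∈ (univ : Finset E), - (w e * (AA a b (a e) U + AA a b (b e) U)) ≤
      w e * (XX a b ((U.erase (a e)).erase (b e)) - XX a b U) := by
    intro e _
    have h2 := XX_erase a b U (a e)
    have h3 := XX_erase a b (U.erase (a e)) (b e)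
    have h4 := AA_mono a b (b e) (erase_subset (a e) U)
    have h5 : -(AA a b (a e) U + AA a b (b e) U) ≤
        XX a b ((U.erase (a e)).erase (b e)) - XX a b U := by linarith
    have := mul_le_mul_of_nonneg_left h5 (hw0 e)
    linarith
  have h2 : ∀ x ∈ U, - (1 / N * AA a b x U) + AA a b x U * load a b w x ≤
      (1 / N - load a b w x) * (XX a b (U.erase x) - XX a b U) := by
    intro x hx
    have h3 := XX_erase a b U x
    have h4 : 0 ≤ 1 / N - load a b w x := by linarith [hl x hx]
    have h5 : - AA a b x U ≤ XX a b (U.erase x) - XX a b U := by linarith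
    have := mul_le_mul_of_nonneg_left h5 h4
    linarith
  have h3 := sum_le_sum h1
  have h4 := sum_le_sum h2
  rw [sum_neg_distrib] at h3
  rw [sum_add_distrib, sum_neg_distrib, ← mul_sum, ← XX_double,
    sum_load a b U w hw (fun x => AA a b x U)] at h4
  have h5 : (1 - 2 / N) * XX a b U = XX a b U - 1 / N * (2 * XX a b U) := by ring
  rw [h5]
  linarith

/-- expectation of one of the squares -/
theorem expect_sq (hab : ∀ e, a e ≠ b e)
    (hs : ∀ e e', ((a e = a e' ∧ b e = b e') ∨ (a e = b e' ∧ b e = a e')) → e = e') {N : ℝ}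
    (hw : ∀ e, ¬ (a e ∈ U ∧ b e ∈ U) → w e = 0) (hN : 0 < N) (v : W) (c : ℝ) :
    ∑ o, pr a b U w N o * (AA a b v (nU a b U o) - c) ^ 2 ≤
      (AA a b v U - c) ^ 2 - 2 * (AA a b v U - c) * (AA a b v U / N) + AA a b v U / N +
        2 * ∑ e, w e * (nn a b v (a e) * nn a b v (b e)) := by
  rw [expect a b U w N (fun V => (AA a b v V - c) ^ 2)]
  set A := AA a b v U with hA
  have h1 : ∀ e ∈ (univ : Finset E),
      w e * ((AA a b v ((U.erase (a e)).erase (b e)) - c) ^ 2 - (A - c) ^ 2) =
      - 2 * (A - c) * (w e * (nn a b v (a e) + nn a b v (b e))) +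
        w e * (nn a b v (a e) ^ 2 + nn a b v (b e) ^ 2) +
        2 * (w e * (nn a b v (a e) * nn a b v (b e))) := by
    intro e _
    by_cases h : a e ∈ U ∧ b e ∈ U
    · have h2 := sum_erase_add (s := U) (f := fun x => nn a b v x) h.1
      have h3 := sum_erase_add (s := U.erase (a e)) (f := fun x => nn a b v x)
        (mem_erase.2 ⟨(hab e).symm, h.2⟩)
      have h4 : AA a b v ((U.erase (a e)).erase (b e)) =
          A - nn a b v (a e) - nn a b v (b e) := by
        unfold AA at hA ⊢
        linarith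
      rw [h4]; ring
    · rw [hw e h]; ring
  have h2 : ∀ x ∈ U, (1 / N - load a b w x) * ((AA a b v (U.erase x) - c) ^ 2 - (A - c) ^ 2) =
      - 2 * (A - c) * (1 / N * nn a b v x) + 2 * (A - c) * (nn a b v x * load a b w x) +
        (1 / N * nn a b v x ^ 2 - nn a b v x ^ 2 * load a b w x) := by
    intro x hx
    have h3 := sum_erase_add (s := U) (f := fun x => nn a b v x) hx
    have h4 : AA a b v (U.erase x) = A - nn a b v x := by
      unfold AA at hA ⊢
      linarith
    rw [h4]; ring
  have hsum : ∑ x ∈ U, nn a b v x = A := rfl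
  have hl1 := sum_load a b U w hw (fun x => nn a b v x)
  have hl2 := sum_load a b U w hw (fun x => nn a b v x ^ 2)
  rw [sum_congr rfl h1, sum_congr rfl h2, sum_add_distrib, sum_add_distrib, sum_add_distrib,
    sum_add_distrib, sum_sub_distrib, ← mul_sum, ← mul_sum, ← mul_sum, ← mul_sum, ← mul_sum,
    ← mul_sum, hl1, hl2, hsum]
  have h3 : 1 / N * ∑ x ∈ U, nn a b v x ^ 2 ≤ A / N := by
    have h4 : ∑ x ∈ U, nn a b v x ^ 2 ≤ A := by
      rw [← hsum]
      refine sum_le_sum fun x _ => ?_
      have h5 := nn_nonneg a b v x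
      have h6 := nn_le_one a b hab hs v x
      nlinarith
    have h5 : 0 ≤ 1 / N := by positivity
    calc 1 / N * ∑ x ∈ U, nn a b v x ^ 2 ≤ 1 / N * A := mul_le_mul_of_nonneg_left h4 h5
      _ = A / N := by ring
  have h6 : A / N = 1 / N * A := by ring
  rw [h6] at h3 ⊢
  linarith

/-- expectation of the second moment -/
theorem expect_Z (hab : ∀ e, a e ≠ b e)
    (hs : ∀ e e', ((a e = a e' ∧ b e = b e') ∨ (a e = b e' ∧ b e = a e')) → e = e') {N : ℝ}
    (hw0 : ∀ e, 0 ≤ w e) (hw : ∀ e, ¬ (a e ∈ U ∧ b e ∈ U) → w e = 0) (hN : 0 < N)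
    (hl : ∀ x ∈ U, load a b w x ≤ 1 / N) (k : ℕ)
    (hk : ∀ v, (univ.filter (fun e => a e = v ∨ b e = v)).card ≤ k) (s : ℝ) :
    ∑ o, pr a b U w N o * ZZ a b ((1 - 1 / N) * s) (nU a b U o) ≤
      (1 - 1 / N) ^ 2 * ZZ a b s U + 2 * k * U.card / N := by
  have h1 : ∑ o, pr a b U w N o * ZZ a b ((1 - 1 / N) * s) (nU a b U o) =
      ∑ v, ∑ o, pr a b U w N o *
        (AA a b v (nU a b U o) - (1 - 1 / N) * s * AA a b v univ) ^ 2 := by
    unfold ZZ
    simp_rw [mul_sum]
    rw [sum_comm]
  rw [h1]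
  have h2 : ∀ v ∈ (univ : Finset W), ∑ o, pr a b U w N o *
        (AA a b v (nU a b U o) - (1 - 1 / N) * s * AA a b v univ) ^ 2 ≤
      (1 - 1 / N) ^ 2 * (AA a b v U - s * AA a b v univ) ^ 2 + AA a b v U / N +
        2 * ∑ e, w e * (nn a b v (a e) * nn a b v (b e)) := by
    intro v _
    refine (expect_sq a b U w hab hs hw hN v _).trans ?_
    set A := AA a b v U
    set D := AA a b v univ
    have h3 : (1 - 1 / N) ^ 2 * (A - s * D) ^ 2 - ((A - (1 - 1 / N) * s * D) ^ 2 -
        2 * (A - (1 - 1 / N) * s * D) * (A / N)) = (A / N) ^ 2 := by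
      have : (1 - 1 / N) * s = s - s / N := by ring
      field_simp
      ring
    have h4 : 0 ≤ (A / N) ^ 2 := sq_nonneg _
    linarith
  refine (sum_le_sum h2).trans ?_
  rw [sum_add_distrib, sum_add_distrib, ← mul_sum, ← mul_sum, ← sum_div]
  have h3 : ∑ v, AA a b v U ≤ k * U.card := by
    unfold AA
    rw [sum_comm]
    calc ∑ x ∈ U, ∑ v, nn a b v x ≤ ∑ _x ∈ U, (k : ℝ) := by
          refine sum_le_sum fun x _ => ?_
          have h4 : ∑ v, nn a b v x = AA a b x univ := by
            unfold AA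
            exact sum_congr rfl fun v _ => nn_symm a b v x
          rw [h4]
          exact AA_univ_le a b hab k x (hk x)
      _ = k * U.card := by rw [sum_const, nsmul_eq_mul]; ring
  have h4 : ∑ v, ∑ e, w e * (nn a b v (a e) * nn a b v (b e)) ≤ k * ∑ e, w e := by
    rw [sum_comm, mul_sum]
    refine sum_le_sum fun e _ => ?_
    rw [← mul_sum, mul_comm (k : ℝ)]
    refine mul_le_mul_of_nonneg_left ?_ (hw0 e)
    calc ∑ v, nn a b v (a e) * nn a b v (b e) ≤ ∑ v, nn a b v (a e) := by
          refine sum_le_sum fun v _ => ?_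
          have h5 := nn_nonneg a b v (a e)
          have h6 := nn_le_one a b hab hs v (b e)
          nlinarith
      _ = AA a b (a e) univ := by
          unfold AA
          exact sum_congr rfl fun v _ => nn_symm a b v (a e)
      _ ≤ k := AA_univ_le a b hab k _ (hk _)
  have h5 : 2 * ∑ e, w e ≤ U.card / N := by
    have h6 := sum_load a b U w hw (fun _ => (1 : ℝ))
    have h7 : ∑ e, w e * (1 + 1) = 2 * ∑ e, w e := by
      rw [mul_sum]; exact sum_congr rfl fun e _ => by ring
    rw [h7] at h6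
    rw [← h6]
    calc ∑ x ∈ U, 1 * load a b w x ≤ ∑ _x ∈ U, 1 / N :=
          sum_le_sum fun x hx => by rw [one_mul]; exact hl x hx
      _ = U.card / N := by rw [sum_const, nsmul_eq_mul]; ring
  have h6 : (∑ v, AA a b v U) / N ≤ k * U.card / N := by gcongr
  have h7 : 2 * ∑ v, ∑ e, w e * (nn a b v (a e) * nn a b v (b e)) ≤ k * (U.card / N) := by
    calc 2 * ∑ v, ∑ e, w e * (nn a b v (a e) * nn a b v (b e)) ≤ 2 * (k * ∑ e, w e) := by
          linarith
      _ = k * (2 * ∑ e, w e) := by ring
      _ ≤ k * (U.card / N) := by gcongr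
  have h8 : 2 * (k : ℝ) * U.card / N = k * U.card / N + k * (U.card / N) := by ring
  rw [h8]
  unfold ZZ
  linarith

/-! ### the choice of the weights -/

/-- excess degree -/
noncomputable def ex (D : ℝ) (x : W) : ℝ := max (AA a b x U - D) 0

/-- weight of an edge -/
noncomputable def we (N D : ℝ) (e : E) : ℝ :=
  if a e ∈ U ∧ b e ∈ U then max (1 - (ex a b U D (a e) + ex a b U D (b e)) / D) 0 / (N * D)
  else 0

theorem we_nonneg {N D : ℝ} (hN : 0 < N) (hD : 0 < D) (e : E) : 0 ≤ we a b U N D e := by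
  unfold we
  split_ifs
  · exact div_nonneg (le_max_right _ _) (by positivity)
  · exact le_rfl

theorem ex_nonneg (D : ℝ) (x : W) : 0 ≤ ex a b U D x := le_max_right _ _

theorem we_le {N D : ℝ} (hN : 0 < N) (hD : 0 < D) (e : E) : we a b U N D e ≤ 1 / (N * D) := by
  unfold we
  split_ifs
  · gcongr
    refine max_le ?_ (by norm_num)
    have h1 := ex_nonneg a b U D (a e)
    have h2 := ex_nonneg a b U D (b e)
    have : 0 ≤ (ex a b U D (a e) + ex a b U D (b e)) / D := by positivity
    linarith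
  · positivity

theorem we_load {N D : ℝ} (hN : 0 < N) (hD : 0 < D) (x : W) (hx : x ∈ U) :
    load a b (we a b U N D) x ≤ 1 / N := by
  set A := AA a b x U with hA
  set m : ℝ := max (1 - ex a b U D x / D) 0 / (N * D) with hm
  have hm0 : 0 ≤ m := div_nonneg (le_max_right _ _) (by positivity)
  have h1 : load a b (we a b U N D) x ≤ A * m := by
    unfold load
    rw [hA, AA_eq, sum_mul]
    refine sum_le_sum fun e _ => ?_
    have hea : a e = x → b e ∈ U → we a b U N D e ≤ m := by
      intro h2 h3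
      unfold we
      rw [if_pos ⟨h2 ▸ hx, h3⟩, hm]
      gcongr
      rw [h2]
      have := ex_nonneg a b U D (b e)
      linarith
    have heb : b e = x → a e ∈ U → we a b U N D e ≤ m := by
      intro h2 h3
      unfold we
      rw [if_pos ⟨h3, h2 ▸ hx⟩, hm]
      gcongr
      rw [h2]
      have := ex_nonneg a b U D (a e)
      linarith
    have hza : ¬ b e ∈ U → we a b U N D e = 0 := fun h => by
      unfold we; rw [if_neg (fun h' => h h'.2)]
    have hzb : ¬ a e ∈ U → we a b U N D e = 0 := fun h => by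
      unfold we; rw [if_neg (fun h' => h h'.1)]
    rw [add_mul]
    refine add_le_add ?_ ?_
    · by_cases h2 : a e = x
      · by_cases h3 : b e ∈ U
        · rw [if_pos h2, if_pos ⟨h2, h3⟩, one_mul]; exact hea h2 h3
        · rw [if_pos h2, hza h3, if_neg (fun h => h3 h.2), zero_mul]
      · rw [if_neg h2, if_neg (fun h => h2 h.1), zero_mul]
    · by_cases h2 : b e = x
      · by_cases h3 : a e ∈ U
        · rw [if_pos h2, if_pos ⟨h2, h3⟩, one_mul]; exact heb h2 h3
        · rw [if_pos h2, hzb h3, if_neg (fun h => h3 h.2), zero_mul]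
      · rw [if_neg h2, if_neg (fun h => h2 h.1), zero_mul]
  refine h1.trans ?_
  have hA0 : 0 ≤ A := AA_nonneg a b x U
  have h2 : A * max (1 - ex a b U D x / D) 0 ≤ D := by
    rcases le_total A D with h | h
    · have h3 : ex a b U D x = 0 := by
        unfold ex; rw [← hA]; exact max_eq_right (by linarith)
      rw [h3, zero_div, sub_zero, max_eq_left (by norm_num), mul_one]
      exact h
    · have h3 : ex a b U D x = A - D := by
        unfold ex; rw [← hA]; exact max_eq_left (by linarith)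
      rw [h3, mul_max_of_nonneg _ _ hA0, mul_zero]
      refine max_le ?_ hD.le
      have h4 : A * (1 - (A - D) / D) = D - (A - D) ^ 2 / D := by
        field_simp
        ring
      rw [h4]
      have : 0 ≤ (A - D) ^ 2 / D := by positivity
      linarith
  calc A * m = (A * max (1 - ex a b U D x / D) 0) / (N * D) := by rw [hm]; ring
    _ ≤ D / (N * D) := by gcongr
    _ = 1 / N := by field_simp

/-- the gain -/
theorem we_sum {N s : ℝ} {k : ℕ} (hN : 0 < N) (hs : 0 < s) (hk1 : 1 ≤ k)
    (hk : ∀ v, AA a b v univ ≤ k) :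
    (XX a b U - U.card * Real.sqrt k - (1 / (4 * Real.sqrt k) + 1 / (k * s)) * ZZ a b s U) /
      (N * (k * s)) ≤ ∑ e, we a b U N (k * s) e := by
  have hk0 : (0 : ℝ) < k := by exact_mod_cast hk1
  set D : ℝ := k * s with hD
  have hD0 : 0 < D := by positivity
  have hsq : 0 < Real.sqrt k := Real.sqrt_pos.2 hk0
  have h1 : ∑ e ∈ univ.filter (fun e => a e ∈ U ∧ b e ∈ U),
      (1 - (ex a b U D (a e) + ex a b U D (b e)) / D) / (N * D) ≤ ∑ e, we a b U N D e := by
    rw [sum_filter]
    refine sum_le_sum fun e _ => ?_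
    unfold we
    split_ifs
    · gcongr
      exact le_max_left _ _
    · exact le_rfl
  refine le_trans ?_ h1
  rw [← sum_div]
  gcongr
  rw [sum_sub_distrib, ← sum_div, sum_EU a b (fun x => ex a b U D x) U]
  have h2 : ∑ _e ∈ univ.filter (fun e => a e ∈ U ∧ b e ∈ U), (1 : ℝ) = XX a b U := by
    rw [sum_const, nsmul_eq_mul, mul_one]; rfl
  rw [h2]
  have h3 : (∑ x ∈ U, ex a b U D x * AA a b x U) / D ≤
      U.card * Real.sqrt k + (1 / (4 * Real.sqrt k) + 1 / D) * ZZ a b s U := by
    have h4 : ∀ x ∈ U, ex a b U D x * AA a b x U / D ≤ Real.sqrt k +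
        (1 / (4 * Real.sqrt k) + 1 / D) * (AA a b x U - s * AA a b x univ) ^ 2 := by
      intro x _
      set Δ := AA a b x U - s * AA a b x univ with hΔ
      set δ := ex a b U D x with hδ
      have hδ0 : 0 ≤ δ := ex_nonneg a b U D x
      have h5 : δ * AA a b x U = δ * D + δ ^ 2 := by
        rcases le_total (AA a b x U) D with h | h
        · have : δ = 0 := by rw [hδ]; exact max_eq_right (by linarith)
          rw [this]; ring
        · have : δ = AA a b x U - D := by rw [hδ]; exact max_eq_left (by linarith)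
          rw [this]; ring
      have h6 : δ ^ 2 ≤ Δ ^ 2 := by
        rcases le_total (AA a b x U) D with h | h
        · have : δ = 0 := by rw [hδ]; exact max_eq_right (by linarith)
          rw [this]; nlinarith [sq_nonneg Δ]
        · have h7 : δ = AA a b x U - D := by rw [hδ]; exact max_eq_left (by linarith)
          have h8 : s * AA a b x univ ≤ D := by
            rw [hD, mul_comm (k : ℝ)]
            exact mul_le_mul_of_nonneg_left (hk x) hs.le
          have h9 : δ ≤ Δ := by rw [h7, hΔ]; linarith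
          nlinarith
      have h7 : δ ≤ Real.sqrt k + 1 / (4 * Real.sqrt k) * δ ^ 2 := by
        have h8 : Real.sqrt k + 1 / (4 * Real.sqrt k) * δ ^ 2 - δ =
            (2 * Real.sqrt k - δ) ^ 2 / (4 * Real.sqrt k) := by
          field_simp
          ring
        have h9 : 0 ≤ (2 * Real.sqrt k - δ) ^ 2 / (4 * Real.sqrt k) := by positivity
        linarith
      rw [h5]
      have h8 : (δ * D + δ ^ 2) / D = δ + 1 / D * δ ^ 2 := by field_simp
      rw [h8]
      have h9 : (1 / (4 * Real.sqrt k) + 1 / D) * δ ^ 2 ≤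
          (1 / (4 * Real.sqrt k) + 1 / D) * Δ ^ 2 := by gcongr
      linarith
    rw [sum_div]
    refine (sum_le_sum h4).trans ?_
    rw [sum_add_distrib, sum_const, nsmul_eq_mul, ← mul_sum]
    have h5 : ∑ x ∈ U, (AA a b x U - s * AA a b x univ) ^ 2 ≤ ZZ a b s U :=
      sum_le_sum_of_subset_of_nonneg (subset_univ U) fun x _ _ => sq_nonneg _
    gcongr
  linarith

end Step

end Pool.Agent.Lib_helper74.Rem
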